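import Mathlib

/-!
The surface `x ^ 2 * z = y ^ 2 + x` over a base ring `R` with `x` in `R`.
-/

open Polynomial

namespace Pool.Agent.V1146

universe u v

section Defs

variable (R : Type u) [CommRing R] (x : R)

/-- the polynomial `y ^ 2 - (x ^ 2 * z - x)` in the variable `y` with coefficients in `R[z]` -/
noncomputable def sPoly : (R[X])[X] := X ^ 2 - C (C (x ^ 2) * X - C x)

/-- the coordinate ring `R[z][y] / (y ^ 2 - (x ^ 2 * z - x))` -/
abbrev Surf := AdjoinRoot (sPoly R x)

/-- the class of `z` -/
noncomputable def zS : Surf R x := AdjoinRoot.of (sPoly R x) X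

/-- the class of `y` -/
noncomputable def yS : Surf R x := AdjoinRoot.root (sPoly R x)

end Defs

section Basic

variable {R : Type u} [CommRing R] (x : R)

lemma sPoly_monic : (sPoly R x).Monic := by
  unfold sPoly
  exact monic_X_pow_sub_C _ two_ne_zero

lemma sPoly_natDegree [Nontrivial R] : (sPoly R x).natDegree = 2 := by
  unfold sPoly
  exact natDegree_X_pow_sub_C

lemma of_C (r : R) : AdjoinRoot.of (sPoly R x) (C r) = algebraMap R (Surf R x) r := by
  rfl

lemma surf_rel : yS R x ^ 2 =
    algebraMap R (Surf R x) (x ^ 2) * zS R x - algebraMap R (Surf R x) x := by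
  have h : AdjoinRoot.mk (sPoly R x) (sPoly R x) = 0 := AdjoinRoot.mk_self
  have h2 : AdjoinRoot.mk (sPoly R x) (sPoly R x) = yS R x ^ 2 -
      (algebraMap R (Surf R x) (x ^ 2) * zS R x - algebraMap R (Surf R x) x) := by
    conv_lhs => enter [2]; unfold sPoly
    rw [map_sub, map_pow, AdjoinRoot.mk_X, AdjoinRoot.mk_C, map_sub, map_mul, of_C, of_C]
    rfl
  rw [h2, sub_eq_zero] at h
  exact h

lemma surf_nf (s : Surf R x) : ∃ a b : R[X],
    s = AdjoinRoot.of (sPoly R x) a + AdjoinRoot.of (sPoly R x) b * yS R x := by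
  rcases subsingleton_or_nontrivial R with h | h
  · refine ⟨0, 0, ?_⟩
    have : Subsingleton (R[X]) := inferInstance
    have : Subsingleton (Surf R x) := by
      have : (1 : Surf R x) = 0 := by
        have : (1 : R) = 0 := Subsingleton.elim _ _
        rw [← map_one (algebraMap R (Surf R x)), this, map_zero]
      exact subsingleton_of_zero_eq_one this.symm
    exact Subsingleton.elim _ _
  · induction s using AdjoinRoot.induction_on with
    | ih p =>
      have h1 : AdjoinRoot.mk (sPoly R x) p = AdjoinRoot.mk (sPoly R x) (p %ₘ sPoly R x) := by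
        rw [AdjoinRoot.mk_eq_mk]
        refine ⟨p /ₘ sPoly R x, ?_⟩
        have := modByMonic_add_div p (sPoly R x)
        linear_combination (1 : (R[X])[X]) * (-this)
      have h2 : (p %ₘ sPoly R x).natDegree < 2 := by
        have := natDegree_modByMonic_lt p (sPoly_monic x) (by
          intro h
          have h3 := sPoly_natDegree x
          rw [h, natDegree_one] at h3
          omega)
        rwa [sPoly_natDegree] at this
      refine ⟨(p %ₘ sPoly R x).coeff 0, (p %ₘ sPoly R x).coeff 1, ?_⟩
      rw [h1]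
      conv_lhs => rw [(p %ₘ sPoly R x).as_sum_range' 2 h2]
      simp only [Finset.sum_range_succ, Finset.sum_range_zero, zero_add, map_add,
        monomial_zero_left, AdjoinRoot.mk_C]
      congr 1
      rw [← C_mul_X_pow_eq_monomial, map_mul, AdjoinRoot.mk_C, pow_one, AdjoinRoot.mk_X]
      rfl

end Basic

section Embedding

variable {R : Type u} [CommRing R] [IsDomain R] (x : R)

set_option linter.unusedSectionVars false

/-- the polynomial `Z = (Y ^ 2 + x) / x ^ 2` -/
noncomputable def ZF : (FractionRing R)[X] :=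
  C ((algebraMap R (FractionRing R) x ^ 2)⁻¹) * (X ^ 2 + C (algebraMap R (FractionRing R) x))

variable {x}

lemma ax_ne (hx : x ≠ 0) : algebraMap R (FractionRing R) x ≠ 0 := by
  intro h
  exact hx ((IsFractionRing.injective R (FractionRing R)) (by rw [h, map_zero]))

lemma ZF_rel (hx : x ≠ 0) : C (algebraMap R (FractionRing R) x ^ 2) * ZF x =
    X ^ 2 + C (algebraMap R (FractionRing R) x) := by
  unfold ZF
  rw [← mul_assoc, ← C_mul, mul_inv_cancel₀ (pow_ne_zero _ (ax_ne hx)), C_1, one_mul]

lemma ZF_natDegree (hx : x ≠ 0) : (ZF x).natDegree = 2 := by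
  unfold ZF
  rw [natDegree_C_mul (inv_ne_zero (pow_ne_zero _ (ax_ne hx)))]
  exact natDegree_X_pow_add_C

variable (x)

/-- the embedding of the surface ring in the polynomial ring over the fraction field -/
noncomputable def iotaF (hx : x ≠ 0) : Surf R x →ₐ[R] (FractionRing R)[X] :=
  AdjoinRoot.liftAlgHom (sPoly R x) (aeval (ZF x)) X (by
    unfold sPoly
    simp only [eval₂_sub, eval₂_pow, eval₂_X, eval₂_C]
    simp only [RingHom.coe_coe, map_sub, map_mul, aeval_C, aeval_X]
    have := ZF_rel hx
    rw [show (algebraMap R (FractionRing R)[X]) (x ^ 2) =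
      C (algebraMap R (FractionRing R) x ^ 2) by rw [← map_pow]; rfl, this]
    change X ^ 2 - (X ^ 2 + C _ - C _) = 0
    ring)

variable {x}

@[simp] lemma iotaF_y (hx : x ≠ 0) : iotaF x hx (yS R x) = X := by
  unfold iotaF yS
  apply AdjoinRoot.liftAlgHom_root

lemma iotaF_of (hx : x ≠ 0) (a : R[X]) :
    iotaF x hx (AdjoinRoot.of (sPoly R x) a) =
      (a.map (algebraMap R (FractionRing R))).comp (ZF x) := by
  have : iotaF x hx (AdjoinRoot.of (sPoly R x) a) = aeval (ZF x) a := by
    unfold iotaF
    apply AdjoinRoot.liftAlgHom_of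
  rw [this, comp, eval₂_map]
  rfl

@[simp] lemma iotaF_z (hx : x ≠ 0) : iotaF x hx (zS R x) = ZF x := by
  unfold zS
  rw [iotaF_of]
  simp

lemma iotaF_algebraMap (hx : x ≠ 0) (r : R) :
    iotaF x hx (algebraMap R _ r) = C (algebraMap R (FractionRing R) r) := by
  rw [AlgHom.commutes]
  rfl

lemma map_frac_inj : Function.Injective (Polynomial.map (algebraMap R (FractionRing R))) :=
  Polynomial.map_injective _ (IsFractionRing.injective R (FractionRing R))

lemma natDegree_comp_Z (hx : x ≠ 0) (a : R[X]) :
    ((a.map (algebraMap R (FractionRing R))).comp (ZF x)).natDegree = 2 * a.natDegree := by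
  rw [natDegree_comp, ZF_natDegree hx,
    natDegree_map_eq_of_injective (IsFractionRing.injective R (FractionRing R)), mul_comm]

lemma comp_Z_eq_zero' (hx : x ≠ 0) {a : (FractionRing R)[X]}
    (h : a.comp (ZF x) = 0) : a = 0 := by
  rcases comp_eq_zero_iff.mp h with h1 | ⟨h1, h2⟩
  · exact h1
  · exfalso
    have := ZF_natDegree hx
    rw [h2, natDegree_C] at this
    omega

/-- uniqueness of the normal form -/
lemma nf_unique' (hx : x ≠ 0) {a b : (FractionRing R)[X]}
    (h : a.comp (ZF x) + b.comp (ZF x) * X = 0) : a = 0 ∧ b = 0 := by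
  have hb : b = 0 := by
    by_contra hb
    have hb' : b.comp (ZF x) ≠ 0 := fun h => hb (comp_Z_eq_zero' hx h)
    have h1 : a.comp (ZF x) = - (b.comp (ZF x) * X) := by
      rw [eq_neg_iff_add_eq_zero]; exact h
    have h2 := congrArg natDegree h1
    rw [natDegree_neg, natDegree_mul hb' X_ne_zero, natDegree_comp, natDegree_comp,
      ZF_natDegree hx, natDegree_X] at h2
    omega
  subst hb
  simp only [zero_comp, zero_mul, add_zero] at h
  exact ⟨comp_Z_eq_zero' hx h, rfl⟩

/-- uniqueness of the normal form -/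
lemma nf_unique (hx : x ≠ 0) {a b : R[X]}
    (h : (a.map (algebraMap R (FractionRing R))).comp (ZF x) +
      (b.map (algebraMap R (FractionRing R))).comp (ZF x) * X = 0) : a = 0 ∧ b = 0 := by
  obtain ⟨h1, h2⟩ := nf_unique' hx h
  exact ⟨map_frac_inj (by rw [h1, Polynomial.map_zero]),
    map_frac_inj (by rw [h2, Polynomial.map_zero])⟩

lemma iotaF_injective (hx : x ≠ 0) : Function.Injective (iotaF x hx) := by
  rw [injective_iff_map_eq_zero]
  intro s hs
  obtain ⟨a, b, rfl⟩ := surf_nf x s
  rw [map_add, map_mul, iotaF_y, iotaF_of, iotaF_of] at hs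
  obtain ⟨rfl, rfl⟩ := nf_unique hx hs
  simp

lemma surf_isDomain (hx : x ≠ 0) : IsDomain (Surf R x) :=
  (iotaF_injective hx).isDomain (iotaF x hx : Surf R x →+* (FractionRing R)[X])

end Embedding

end Pool.Agent.V1146
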