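import Pool.Agent.V1146.Dan.Base
import Pool.Agent.H868R3.TBDef

/-!
Classification of the locally nilpotent derivations of the surface `x ^ 2 * z = y ^ 2 + x` and of
its subalgebras containing `R` and a multiple `h * S`.
-/

open Polynomial

namespace Pool.Agent.V1146

open Pool.Agent.H868R3

universe u v

section Cls

variable {K : Type v} {R : Type u} [Field K] [CharZero K] [CommRing R] [IsDomain R] [Algebra K R]
  {x : R} (hx : x ≠ 0) (A : Subalgebra K (Surf R x)) (hR : ∀ r : R, algebraMap R (Surf R x) r ∈ A)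
  (h : R) (h0 : h ≠ 0) (hh : ∀ s : Surf R x, algebraMap R (Surf R x) h * s ∈ A)
  (D : Derivation K A A) (hD : IsLND D) (hDR : ∀ r : R, D ⟨algebraMap R (Surf R x) r, hR r⟩ = 0)

set_option linter.unusedSectionVars false

/-- the embedding of `A` in `F[Y]` -/
noncomputable def jA : A →ₐ[K] (FractionRing R)[X] :=
  ((iotaF x hx).restrictScalars K).comp A.val

lemma jA_apply (a : A) : jA hx A a = iotaF x hx (a : Surf R x) := rfl

lemma jA_injective : Function.Injective (jA hx A) :=
  (iotaF_injective hx).comp Subtype.val_injective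

/-- shorthand for constants of `F[Y]` -/
noncomputable abbrev cF (r : R) : (FractionRing R)[X] := C (algebraMap R (FractionRing R) r)

lemma cF_ne {r : R} (hr : r ≠ 0) : cF r ≠ 0 := by
  rw [cF, Ne, C_eq_zero]
  exact ax_ne hr

/-- the element `h * y` -/
noncomputable def hy : A := ⟨_, hh (yS R x)⟩

/-- the element `h * z` -/
noncomputable def hz : A := ⟨_, hh (zS R x)⟩

/-- a constant -/
noncomputable def cA (r : R) : A := ⟨_, hR r⟩

lemma cA_mul (r s : R) : cA A hR (r * s) = cA A hR r * cA A hR s := by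
  apply Subtype.ext; exact map_mul _ _ _

lemma cA_pow (r : R) (n : ℕ) : cA A hR (r ^ n) = cA A hR r ^ n := by
  apply Subtype.ext; exact map_pow _ _ _

lemma jA_cA (r : R) : jA hx A (cA A hR r) = cF r := by
  rw [jA_apply]; exact iotaF_algebraMap hx r

lemma jA_hy : jA hx A (hy A h hh) = cF h * X := by
  rw [jA_apply, hy]; simp only [map_mul, iotaF_y, iotaF_algebraMap]

lemma jA_hz : jA hx A (hz A h hh) = cF h * ZF x := by
  rw [jA_apply, hz]; simp only [map_mul, iotaF_z, iotaF_algebraMap]

include hDR in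
lemma D_cA_mul (r : R) (f : A) : D (cA A hR r * f) = cA A hR r * D f := by
  have h1 : D (cA A hR r) = 0 := hDR r
  rw [D.leibniz, h1, smul_zero, add_zero, smul_eq_mul]

include hDR in
lemma hyhz_rel : cF (x ^ 2) * jA hx A (D (hz A h hh)) = 2 * X * jA hx A (D (hy A h hh)) ∨ h = 0 := by
  by_cases h0 : h = 0
  · exact Or.inr h0
  left
  have e1 : hy A h hh ^ 2 = cA A hR (x ^ 2 * h) * hz A h hh - cA A hR (x * h ^ 2) := by
    apply Subtype.ext
    change (algebraMap R (Surf R x) h * yS R x) ^ 2 =
      algebraMap R (Surf R x) (x ^ 2 * h) * (algebraMap R (Surf R x) h * zS R x) -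
        algebraMap R (Surf R x) (x * h ^ 2)
    rw [mul_pow, surf_rel]
    simp only [map_mul, map_pow]
    ring
  have e2 := congrArg D e1
  have h1 : D (cA A hR (x * h ^ 2)) = 0 := hDR _
  rw [map_sub, h1, sub_zero, D_cA_mul A hR D hDR, pow_two, D.leibniz, smul_eq_mul] at e2
  have e3 := congrArg (jA hx A) e2
  simp only [map_add, map_mul, jA_hy, jA_cA] at e3
  apply mul_left_cancel₀ (cF_ne h0)
  simp only [cF, map_mul] at e3 ⊢
  linear_combination -e3

include hDR h0 in
/-- the formula for a derivation -/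
lemma D_formula (f : A) :
    cF h * jA hx A (D f) = derivative (jA hx A f) * jA hx A (D (hy A h hh)) := by
  obtain ⟨Q, hQ⟩ : ∃ Q, Q = jA hx A (D (hy A h hh)) := ⟨_, rfl⟩
  have hP := (hyhz_rel hx A hR h hh D hDR).resolve_right h0
  rw [← hQ] at hP ⊢
  have hZ' : cF (x ^ 2) * derivative (ZF x) = 2 * X := by
    have := congrArg derivative (ZF_rel hx)
    simp only [derivative_mul, derivative_C, zero_mul, zero_add, derivative_add, derivative_X_pow,
      add_zero, Nat.cast_ofNat, Nat.add_one_sub_one, pow_one] at this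
    rw [cF, map_pow, this, show (C 2 : (FractionRing R)[X]) = 2 from rfl]
  have hP' : jA hx A (D (hz A h hh)) = derivative (ZF x) * Q := by
    apply mul_left_cancel₀ (cF_ne (pow_ne_zero 2 hx))
    rw [hP, ← mul_assoc, hZ']
  -- elements satisfying the formula
  let T : A → Prop := fun f => cF h * jA hx A (D f) = derivative (jA hx A f) * Q
  have Tadd : ∀ f g, T f → T g → T (f + g) := by
    intro f g hf hg
    change cF h * jA hx A (D (f + g)) = derivative (jA hx A (f + g)) * Q
    rw [map_add, map_add, map_add, derivative_add, mul_add, hf, hg, add_mul]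
  have Tmul : ∀ f g, T f → T g → T (f * g) := by
    intro f g hf hg
    change cF h * jA hx A (D (f * g)) = derivative (jA hx A (f * g)) * Q
    have hf' : cF h * jA hx A (D f) = derivative (jA hx A f) * Q := hf
    have hg' : cF h * jA hx A (D g) = derivative (jA hx A g) * Q := hg
    rw [D.leibniz, smul_eq_mul, smul_eq_mul, map_add, map_mul, map_mul, map_mul, derivative_mul]
    linear_combination (jA hx A f) * hg' + (jA hx A g) * hf'
  have Tc : ∀ r, T (cA A hR r) := by
    intro r
    change cF h * jA hx A (D (cA A hR r)) = derivative (jA hx A (cA A hR r)) * Q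
    have h1 : D (cA A hR r) = 0 := hDR r
    rw [h1, jA_cA, map_zero, cF, cF, derivative_C, mul_zero, zero_mul]
  have Ty : T (hy A h hh) := by
    change cF h * jA hx A (D (hy A h hh)) = derivative (jA hx A (hy A h hh)) * Q
    rw [← hQ, jA_hy, cF, derivative_C_mul, derivative_X, mul_one]
  have Tz : T (hz A h hh) := by
    change cF h * jA hx A (D (hz A h hh)) = derivative (jA hx A (hz A h hh)) * Q
    rw [hP', jA_hz, cF, derivative_C_mul, mul_assoc]
  let G : Surf R x → Prop := fun s => ∃ (N : ℕ) (f : A), T f ∧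
    (f : Surf R x) = algebraMap R (Surf R x) h ^ N * s
  have Gadd : ∀ s t, G s → G t → G (s + t) := by
    rintro s t ⟨N, f, hf, hf'⟩ ⟨M, g, hg, hg'⟩
    refine ⟨N + M, cA A hR (h ^ M) * f + cA A hR (h ^ N) * g,
      Tadd _ _ (Tmul _ _ (Tc _) hf) (Tmul _ _ (Tc _) hg), ?_⟩
    change algebraMap R (Surf R x) (h ^ M) * (f : Surf R x) +
      algebraMap R (Surf R x) (h ^ N) * (g : Surf R x) = _
    rw [hf', hg', map_pow, map_pow]; ring
  have Gmul : ∀ s t, G s → G t → G (s * t) := by
    rintro s t ⟨N, f, hf, hf'⟩ ⟨M, g, hg, hg'⟩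
    refine ⟨N + M, f * g, Tmul _ _ hf hg, ?_⟩
    change (f : Surf R x) * (g : Surf R x) = _
    rw [hf', hg']; ring
  have Gc : ∀ r, G (algebraMap R (Surf R x) r) := fun r => ⟨0, cA A hR r, Tc r, by
    rw [pow_zero, one_mul]; rfl⟩
  have Gy : G (yS R x) := ⟨1, hy A h hh, Ty, by rw [pow_one]; rfl⟩
  have Gz : G (zS R x) := ⟨1, hz A h hh, Tz, by rw [pow_one]; rfl⟩
  have Gof : ∀ a : R[X], G (AdjoinRoot.of (sPoly R x) a) := by
    intro a
    induction a using Polynomial.induction_on with
    | C r => rw [of_C]; exact Gc r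
    | add p q hp hq => rw [map_add]; exact Gadd _ _ hp hq
    | monomial n r hn =>
      rw [pow_succ, ← mul_assoc, map_mul]
      exact Gmul _ _ hn Gz
  have Gall : ∀ s, G s := by
    intro s
    obtain ⟨a, b, rfl⟩ := surf_nf x s
    exact Gadd _ _ (Gof a) (Gmul _ _ (Gof b) Gy)
  obtain ⟨N, g, hg, hg'⟩ := Gall (f : Surf R x)
  have hgf : g = cA A hR (h ^ N) * f := by
    apply Subtype.ext
    rw [hg']
    change _ = algebraMap R (Surf R x) (h ^ N) * (f : Surf R x)
    rw [map_pow]
  have hg2 : cF h * jA hx A (D g) = derivative (jA hx A g) * Q := hg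
  rw [hgf, D_cA_mul A hR D hDR, map_mul, map_mul, jA_cA, cF, cF, derivative_C_mul] at hg2
  apply mul_left_cancel₀ (cF_ne (pow_ne_zero N h0))
  rw [cF, cF]
  linear_combination hg2

include hDR h0 hD in
lemma Q_const : ∃ q : FractionRing R, jA hx A (D (hy A h hh)) = C q := by
  have : CharZero (FractionRing R) := charZero_of_injective_algebraMap
    (algebraMap K (FractionRing R)).injective
  obtain ⟨Q, hQ⟩ : ∃ Q, Q = jA hx A (D (hy A h hh)) := ⟨_, rfl⟩
  rw [← hQ]
  by_contra hcon
  have hQ1 : 1 ≤ Q.natDegree := by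
    by_contra h1
    have h2 : Q.natDegree = 0 := by omega
    exact hcon ⟨Q.coeff 0, eq_C_of_natDegree_eq_zero h2⟩
  have hQ0 : Q ≠ 0 := by
    rintro rfl
    simp at hQ1
  have step : ∀ f : A, 1 ≤ (jA hx A f).natDegree → 1 ≤ (jA hx A (D f)).natDegree := by
    intro f hf
    have h1 := D_formula hx A hR h h0 hh D hDR f
    rw [← hQ] at h1
    have hd : derivative (jA hx A f) ≠ 0 := by
      intro h2
      have := Polynomial.derivative_eq_zero.mp h2
      omega
    have h2 := congrArg natDegree h1
    rw [natDegree_mul hd hQ0, cF, natDegree_C_mul (ax_ne h0), natDegree_derivative] at h2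
    omega
  obtain ⟨n, hn⟩ := hD (hy A h hh)
  have hall : ∀ n : ℕ, 1 ≤ (jA hx A ((⇑D)^[n] (hy A h hh))).natDegree := by
    intro n
    induction n with
    | zero =>
      simp only [Function.iterate_zero, id_eq]
      rw [jA_hy, cF, natDegree_C_mul (ax_ne h0), natDegree_X]
    | succ n ih =>
      rw [Function.iterate_succ_apply']
      exact step _ ih
  have := hall n
  rw [hn, map_zero, natDegree_zero] at this
  omega

include hDR h0 hD hx hh in
/-- the main formula -/
theorem D_class : ∃ r : R, ∀ (f : A) (a b : R[X]),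
    (f : Surf R x) = AdjoinRoot.of (sPoly R x) a + AdjoinRoot.of (sPoly R x) b * yS R x →
    2 * algebraMap R (Surf R x) h * ((D f : A) : Surf R x) = algebraMap R (Surf R x) r *
      (2 * yS R x * AdjoinRoot.of (sPoly R x) (derivative a) +
        2 * yS R x ^ 2 * AdjoinRoot.of (sPoly R x) (derivative b) +
        algebraMap R (Surf R x) (x ^ 2) * AdjoinRoot.of (sPoly R x) b) := by
  obtain ⟨q, hq⟩ := Q_const hx A hR h h0 hh D hD hDR
  have hP := (hyhz_rel hx A hR h hh D hDR).resolve_right h0
  have hform := D_formula hx A hR h h0 hh D hDR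
  rw [hq] at hP hform
  obtain ⟨a, b, hab⟩ := surf_nf x ((D (hz A h hh) : A) : Surf R x)
  have h1 : jA hx A (D (hz A h hh)) = (a.map (algebraMap R (FractionRing R))).comp (ZF x) +
      (b.map (algebraMap R (FractionRing R))).comp (ZF x) * X := by
    rw [jA_apply, hab, map_add, map_mul, iotaF_y, iotaF_of, iotaF_of]
  have hne : algebraMap R (FractionRing R) (x ^ 2) ≠ 0 := ax_ne (pow_ne_zero 2 hx)
  have h2 : (a.map (algebraMap R (FractionRing R))).comp (ZF x) +
      (b.map (algebraMap R (FractionRing R)) -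
        C (2 * q * (algebraMap R (FractionRing R) (x ^ 2))⁻¹)).comp (ZF x) * X = 0 := by
    rw [sub_comp, C_comp, sub_mul, ← add_sub_assoc, ← h1]
    apply mul_left_cancel₀ (cF_ne (pow_ne_zero 2 hx))
    rw [mul_zero, mul_sub, hP, ← mul_assoc, ← C_mul,
      mul_comm (algebraMap R (FractionRing R) (x ^ 2)) (2 * q * _),
      mul_assoc (2 * q), inv_mul_cancel₀ hne, mul_one, C_mul]
    have : (C 2 : (FractionRing R)[X]) = 2 := rfl
    rw [this]; ring
  obtain ⟨-, h3⟩ := nf_unique' hx h2
  rw [sub_eq_zero] at h3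
  have h4 := congrArg (fun p => p.coeff 0) h3
  simp only [coeff_map, coeff_C_zero] at h4
  refine ⟨b.coeff 0, ?_⟩
  intro f a' b' hf
  apply iotaF_injective hx
  have h5 := hform f
  rw [jA_apply, jA_apply, hf, map_add, map_mul, iotaF_y, iotaF_of, iotaF_of] at h5
  simp only [map_mul, map_add, map_pow, iotaF_y, iotaF_of, iotaF_algebraMap, map_ofNat]
  have hZ' : cF (x ^ 2) * derivative (ZF x) = 2 * X := by
    have := congrArg derivative (ZF_rel hx)
    simp only [derivative_mul, derivative_C, zero_mul, zero_add, derivative_add, derivative_X_pow,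
      add_zero, Nat.cast_ofNat, Nat.add_one_sub_one, pow_one] at this
    rw [cF, map_pow, this, show (C 2 : (FractionRing R)[X]) = 2 from rfl]
  have h6 : (C (algebraMap R (FractionRing R) (b.coeff 0)) : (FractionRing R)[X]) * cF (x ^ 2) =
      2 * C q := by
    rw [cF, ← C_mul, h4, mul_assoc, inv_mul_cancel₀ hne, mul_one, C_mul]
    rfl
  rw [derivative_add, derivative_mul, derivative_X, mul_one, derivative_comp, derivative_comp,
    derivative_map, derivative_map] at h5
  apply mul_left_cancel₀ (cF_ne (pow_ne_zero 2 hx))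
  rw [cF] at *
  simp only [map_pow, C_pow] at *
  linear_combination (2 * C (algebraMap R (FractionRing R) x) ^ 2) * h5 +
    (Polynomial.map (algebraMap R (FractionRing R)) (derivative a')).comp (ZF x) * 2 * C q * hZ' +
    (Polynomial.map (algebraMap R (FractionRing R)) (derivative b')).comp (ZF x) * X * 2 * C q * hZ' -
    (2 * X * (Polynomial.map (algebraMap R (FractionRing R)) (derivative a')).comp (ZF x) +
     2 * X ^ 2 * (Polynomial.map (algebraMap R (FractionRing R)) (derivative b')).comp (ZF x) +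
     C (algebraMap R (FractionRing R) x) ^ 2 *
      (Polynomial.map (algebraMap R (FractionRing R)) b').comp (ZF x)) * h6

end Cls

end Pool.Agent.V1146
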