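import Pool.Agent.V1146.Dan.Cls
import Pool.Agent.H868R3.TBTypeB

/-!
Locally nilpotent derivations with a slice on `A[u]`.
-/

open Polynomial

namespace Pool.Agent.V1146

open Pool.Agent.H868R3

universe u v w

section General

variable {K : Type v} [Field K] {P : Type u} {B : Type w} [CommRing P] [CommRing B] [Algebra K P]
  [Algebra K B]

lemma exists_restrict (j : P →ₐ[K] B) (hj : Function.Injective j) (D : Derivation K B B)
    (hD : ∀ p, ∃ q, j q = D (j p)) : ∃ D' : Derivation K P P, ∀ p, j (D' p) = D (j p) := by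
  choose f hf using hD
  refine ⟨Derivation.mk' { toFun := f, map_add' := ?_, map_smul' := ?_ } ?_, hf⟩
  · intro a b
    apply hj
    rw [hf, map_add, map_add, map_add, hf, hf]
  · intro c a
    apply hj
    rw [hf, map_smul, D.map_smul, RingHom.id_apply, map_smul, hf]
  · intro a b
    apply hj
    change j (f (a * b)) = j (a * f b + b * f a)
    rw [hf, map_mul, D.leibniz, map_add, map_mul, map_mul, hf, hf]
    rfl

lemma restrict_lnd {j : P →ₐ[K] B} (hj : Function.Injective j) {D : Derivation K B B}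
    {D' : Derivation K P P} (h : ∀ p, j (D' p) = D (j p)) (hD : IsLND D) : IsLND D' := by
  intro a
  obtain ⟨n, hn⟩ := hD (j a)
  refine ⟨n, hj ?_⟩
  have : ∀ n : ℕ, j ((⇑D')^[n] a) = (⇑D)^[n] (j a) := by
    intro n
    induction n with
    | zero => rfl
    | succ n ih => rw [Function.iterate_succ_apply', Function.iterate_succ_apply', h, ih]
  rw [this, hn, map_zero]

lemma nil_add (D : Derivation K P P) {a b : P} (ha : ∃ n : ℕ, (⇑D)^[n] a = 0)
    (hb : ∃ n : ℕ, (⇑D)^[n] b = 0) : ∃ n : ℕ, (⇑D)^[n] (a + b) = 0 := by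
  obtain ⟨m, hm⟩ := ha
  obtain ⟨n, hn⟩ := hb
  refine ⟨m + n, ?_⟩
  rw [iterate_map_add]
  have h1 : (⇑D)^[m + n] a = 0 := by
    rw [add_comm, Function.iterate_add_apply, hm]; exact iterate_map_zero _ _
  have h2 : (⇑D)^[m + n] b = 0 := by
    rw [Function.iterate_add_apply, hn]; exact iterate_map_zero _ _
  rw [h1, h2, add_zero]

lemma nil_mul_aux (D : Derivation K P P) : ∀ (N m n : ℕ) (a b : P), m + n = N →
    (⇑D)^[m] a = 0 → (⇑D)^[n] b = 0 → (⇑D)^[N] (a * b) = 0 := by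
  intro N
  induction N with
  | zero =>
    intro m n a b hmn ha hb
    have : m = 0 := by omega
    subst this
    simp only [Function.iterate_zero, id_eq] at ha ⊢
    rw [ha, zero_mul]
  | succ N ih =>
    intro m n a b hmn ha hb
    rcases m with _ | m
    · simp only [Function.iterate_zero, id_eq] at ha
      rw [ha, zero_mul]; exact iterate_map_zero _ _
    rcases n with _ | n
    · simp only [Function.iterate_zero, id_eq] at hb
      rw [hb, mul_zero]; exact iterate_map_zero _ _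
    rw [Function.iterate_succ_apply, D.leibniz, smul_eq_mul, smul_eq_mul, iterate_map_add]
    rw [ih (m + 1) n a (D b) (by omega) ha (by rwa [Function.iterate_succ_apply] at hb)]
    rw [ih (n + 1) m b (D a) (by omega) hb (by rwa [Function.iterate_succ_apply] at ha), add_zero]

lemma nil_mul (D : Derivation K P P) {a b : P} (ha : ∃ n : ℕ, (⇑D)^[n] a = 0)
    (hb : ∃ n : ℕ, (⇑D)^[n] b = 0) : ∃ n : ℕ, (⇑D)^[n] (a * b) = 0 := by
  obtain ⟨m, hm⟩ := ha
  obtain ⟨n, hn⟩ := hb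
  exact ⟨m + n, nil_mul_aux D _ m n a b rfl hm hn⟩

lemma mem_hdstar_of {D : Derivation K P P} (hD : IsLND D) {s : P} (hs : D s = 1) {f : P}
    (hf : D f = 0) : f ∈ HDStar K P :=
  Algebra.subset_adjoin ⟨D, hD, ⟨s, hs⟩, hf⟩

end General

section Two

variable {K A : Type u} [Field K] [CharZero K] [CommRing A] [Algebra K A]

lemma neg_lnd {δ : Derivation K A A} (hδ : IsLND δ) : IsLND (-δ) := by
  intro a
  obtain ⟨n, hn⟩ := hδ a
  refine ⟨n, ?_⟩
  have : ∀ n : ℕ, (⇑(-δ))^[n] a = (-1) ^ n * (⇑δ)^[n] a := by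
    intro n
    induction n with
    | zero => simp
    | succ n ih =>
      rw [Function.iterate_succ_apply', Function.iterate_succ_apply', ih]
      rw [Derivation.neg_apply]
      have h1 : ((-1 : A) ^ n) = algebraMap K A ((-1) ^ n) := by simp
      rw [h1, ← Algebra.smul_def, Derivation.map_smul, Algebra.smul_def, ← h1, pow_succ]
      ring
  rw [this, hn, mul_zero]

lemma triD_kernel (δ : Derivation K A A) {α β γ : A} (h1 : δ α = β)
    (h2 : δ β = γ) (h3 : δ γ = 0) (k : ℕ) :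
    triD δ k (C α - ((k + 1 : ℕ) : K)⁻¹ • (C β * X ^ (k + 1)) +
      (((k + 1 : ℕ) : K)⁻¹ ^ 2 * 2⁻¹) • (C γ * X ^ (2 * k + 2))) = 0 := by
  have hk : ((k + 1 : ℕ) : K) ≠ 0 := Nat.cast_ne_zero.mpr (Nat.succ_ne_zero k)
  have e1 : triD δ k (C α) = C β * X ^ k := by
    rw [← monomial_zero_left, triD_monomial, h1]
    simp [C_mul_X_pow_eq_monomial]
  have e2 : triD δ k (C β * X ^ (k + 1)) = ((k + 1 : ℕ) : K) • (C β * X ^ k) +
      C γ * X ^ (2 * k + 1) := by
    rw [C_mul_X_pow_eq_monomial, triD_monomial, h2, C_mul_X_pow_eq_monomial,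
      C_mul_X_pow_eq_monomial, smul_monomial, Nat.add_sub_cancel,
      show k + 1 + k = 2 * k + 1 by ring]
    congr 2
    rw [Algebra.smul_def, mul_comm]; simp
  have e3 : triD δ k (C γ * X ^ (2 * k + 2)) = (((k + 1 : ℕ) : K) * 2) •
      (C γ * X ^ (2 * k + 1)) := by
    rw [C_mul_X_pow_eq_monomial, triD_monomial, h3, map_zero, add_zero,
      C_mul_X_pow_eq_monomial, smul_monomial, show 2 * k + 2 - 1 = 2 * k + 1 by omega]
    congr 1
    rw [Algebra.smul_def, mul_comm]; simp [map_ofNat]; ring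
  rw [map_add, map_sub, Derivation.map_smul, Derivation.map_smul, e1, e2, e3, smul_add, smul_smul,
    smul_smul, inv_mul_cancel₀ hk, one_smul]
  have : ((k + 1 : ℕ) : K)⁻¹ ^ 2 * 2⁻¹ * (((k + 1 : ℕ) : K) * 2) = ((k + 1 : ℕ) : K)⁻¹ := by
    field_simp
  rw [this]
  abel

/-- `β u ^ (k + 1)` is in the invariant if `β = δ α` and `δ (δ (δ α)) = 0` -/
theorem mul_X_pow_mem_hdstar' (δ : Derivation K A A) (hδ : IsLND δ) {α β γ : A} (h1 : δ α = β)
    (h2 : δ β = γ) (h3 : δ γ = 0) (k : ℕ) : C β * X ^ (k + 1) ∈ HDStar K A[X] := by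
  have hk : ((k + 1 : ℕ) : K) ≠ 0 := Nat.cast_ne_zero.mpr (Nat.succ_ne_zero k)
  have m1 := mem_hdstar_of (triD_lnd δ hδ k) (triD_X δ k) (triD_kernel δ h1 h2 h3 k)
  have m2 := mem_hdstar_of (triD_lnd (-δ) (neg_lnd hδ) k) (triD_X (-δ) k)
    (triD_kernel (-δ) (α := α) (β := -β) (γ := γ) (by rw [Derivation.neg_apply, h1])
      (by rw [Derivation.neg_apply, map_neg, h2, neg_neg])
      (by rw [Derivation.neg_apply, h3, neg_zero]) k)
  have m3 := (HDStar K A[X]).smul_mem ((HDStar K A[X]).sub_mem m2 m1) (((k + 1 : ℕ) : K) * 2⁻¹)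
  convert m3 using 1
  rw [C_neg, neg_mul, smul_neg, sub_neg_eq_add]
  have h4 : (C α + ((k + 1 : ℕ) : K)⁻¹ • (C β * X ^ (k + 1)) +
      (((k + 1 : ℕ) : K)⁻¹ ^ 2 * 2⁻¹) • (C γ * X ^ (2 * k + 2)) -
      (C α - ((k + 1 : ℕ) : K)⁻¹ • (C β * X ^ (k + 1)) +
      (((k + 1 : ℕ) : K)⁻¹ ^ 2 * 2⁻¹) • (C γ * X ^ (2 * k + 2)))) =
      (2 * ((k + 1 : ℕ) : K)⁻¹) • (C β * X ^ (k + 1)) := by
    rw [show (2 : K) * ((k + 1 : ℕ) : K)⁻¹ = ((k + 1 : ℕ) : K)⁻¹ + ((k + 1 : ℕ) : K)⁻¹ by ring,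
      add_smul]
    abel
  rw [h4, smul_smul]
  have h5 : ((k + 1 : ℕ) : K) * 2⁻¹ * (2 * ((k + 1 : ℕ) : K)⁻¹) = 1 := by
    field_simp
  rw [h5, one_smul]

end Two

end Pool.Agent.V1146
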