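import Pool.Agent.V1146.Dan.Slice
import Pool.Agent.H868R3.TBBase

/-!
Units are killed by locally nilpotent derivations, and the basic locally nilpotent derivation of
the surface ring.
-/

open Polynomial

namespace Pool.Agent.V1146

open Pool.Agent.H868R3

universe u v

section Units

variable {K : Type v} {A : Type u} [Field K] [CommRing A] [Algebra K A]

lemma iter_leibniz (D : Derivation K A A) (n : ℕ) (a b : A) :
    (⇑D)^[n] (a * b) =
      ∑ ij ∈ Finset.HasAntidiagonal.antidiagonal n,
        n.choose ij.1 • ((⇑D)^[ij.1] a * (⇑D)^[ij.2] b) := by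
  induction n with
  | zero => simp
  | succ n ih =>
    rw [Finset.sum_antidiagonal_choose_succ_nsmul (M := A)
      (fun i j => (⇑D)^[i] a * (⇑D)^[j] b) n]
    simp only [Function.iterate_succ_apply', ih, map_sum, map_nsmul, Derivation.leibniz,
      smul_eq_mul, smul_add, Finset.sum_add_distrib]
    congr 1
    refine Finset.sum_congr rfl fun ⟨i, j⟩ hij ↦ ?_
    rw [n.choose_symm_of_eq_add (Finset.HasAntidiagonal.mem_antidiagonal.1 hij).symm, mul_comm]

lemma iter_zero (D : Derivation K A A) (n : ℕ) : (⇑D)^[n] 0 = 0 := iterate_map_zero _ _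

lemma iter_ge (D : Derivation K A A) {n k : ℕ} {a : A} (h : (⇑D)^[n] a = 0) (hk : n ≤ k) :
    (⇑D)^[k] a = 0 := by
  obtain ⟨j, rfl⟩ := Nat.exists_eq_add_of_le hk
  rw [add_comm, Function.iterate_add_apply, h, iter_zero]

lemma iter_one (D : Derivation K A A) (r : ℕ) : (⇑D)^[r + 1] 1 = 0 := by
  rw [Function.iterate_succ_apply, Derivation.map_one_eq_zero, iter_zero]

/-- Units are in the kernel of locally nilpotent derivations of domains. -/
lemma unit_ker [CharZero K] [IsDomain A] {D : Derivation K A A} (h : IsLND D) {u v : A}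
    (huv : u * v = 1) : D u = 0 := by
  classical
  have hu : u ≠ 0 := left_ne_zero_of_mul (by rw [huv]; exact one_ne_zero)
  have hv : v ≠ 0 := right_ne_zero_of_mul (by rw [huv]; exact one_ne_zero)
  have key : ∀ w : A, w ≠ 0 → ∃ p, (⇑D)^[p] w ≠ 0 ∧ (⇑D)^[p + 1] w = 0 := by
    intro w hw
    have hpos : 1 ≤ Nat.find (h w) := by
      rw [Nat.le_find_iff]
      intro k hk hk0
      have : k = 0 := by omega
      subst this
      exact hw hk0
    refine ⟨Nat.find (h w) - 1, Nat.find_min (h w) (by omega), ?_⟩
    rw [Nat.sub_add_cancel hpos]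
    exact Nat.find_spec (h w)
  obtain ⟨p, hp, hp'⟩ := key u hu
  obtain ⟨q, hq, hq'⟩ := key v hv
  have h1 := iter_leibniz D (p + q) u v
  rw [huv, Finset.sum_eq_single (p, q)] at h1
  · by_cases hp0 : p = 0
    · subst hp0; exact hp'
    · exfalso
      obtain ⟨r, hr⟩ := Nat.exists_eq_succ_of_ne_zero (show p + q ≠ 0 by omega)
      rw [hr, Nat.succ_eq_add_one, iter_one] at h1
      have h2 : (((r + 1).choose p : ℕ) : A) * ((⇑D)^[p] u * (⇑D)^[q] v) = 0 := by
        rw [← nsmul_eq_mul]; exact h1.symm
      have h3 : (((r + 1).choose p : ℕ) : A) ≠ 0 := by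
        have h4 : (((r + 1).choose p : ℕ) : A) = algebraMap K A (((r + 1).choose p : ℕ) : K) := by
          simp
        rw [h4]
        intro h5
        have h6 := (FaithfulSMul.algebraMap_injective K A) (h5.trans (map_zero _).symm)
        have h7 : (r + 1).choose p = 0 := by exact_mod_cast h6
        rw [Nat.choose_eq_zero_iff] at h7
        omega
      exact mul_ne_zero h3 (mul_ne_zero hp hq) h2
  · rintro ⟨i, j⟩ hij hne
    have hij' : i + j = p + q := Finset.HasAntidiagonal.mem_antidiagonal.1 hij
    simp only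
    by_cases hip : p < i
    · rw [iter_ge D hp' (show p + 1 ≤ i by omega)]; simp
    · have hjq : q < j := by
        by_contra hcon
        apply hne
        ext <;> simp only <;> omega
      rw [iter_ge D hq' (show q + 1 ≤ j by omega)]; simp
  · intro hnot
    exact absurd (Finset.HasAntidiagonal.mem_antidiagonal (n := p + q) (a := (p, q)) |>.2 rfl) hnot

end Units

section Delta

variable {K R : Type u} [Field K] [CharZero K] [CommRing R] [IsDomain R] [Algebra K R]
  {x : R} (hx : x ≠ 0) (A : Subalgebra K (Surf R x))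
  (h : R) (hh : ∀ s : Surf R x, algebraMap R (Surf R x) h * s ∈ A)

/-- the derivative on `F[Y]` as a derivation over `K` -/
noncomputable def dF (K R : Type u) [Field K] [CommRing R] [IsDomain R] [Algebra K R] :
    Derivation K (FractionRing R)[X] (FractionRing R)[X] :=
  (Polynomial.derivative' :
    Derivation (FractionRing R) (FractionRing R)[X] (FractionRing R)[X]).restrictScalars K

lemma dF_apply (p : (FractionRing R)[X]) : dF K R p = derivative p := rfl

/-- the embedding over `K` -/
noncomputable def iotaK (K : Type u) {R : Type u} [Field K] [CommRing R] [IsDomain R]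
    [Algebra K R] {x : R} (hx : x ≠ 0) : Surf R x →ₐ[K] (FractionRing R)[X] :=
  (iotaF x hx).restrictScalars K

lemma iotaK_apply (s : Surf R x) : iotaK K hx s = iotaF x hx s := rfl

lemma dF_const (r : R) : dF K R (iotaK K hx (algebraMap R (Surf R x) r)) = 0 := by
  rw [iotaK_apply, iotaF_algebraMap, dF_apply, derivative_C]

lemma dF_y : dF K R (iotaK K hx (yS R x)) = 1 := by
  rw [iotaK_apply, iotaF_y, dF_apply, derivative_X]

lemma iotaK_injective : Function.Injective (iotaK K hx) := iotaF_injective hx

include hx hh in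
theorem exists_delta : ∃ δ : Derivation K A A, IsLND δ ∧ ∀ (f : A) (a b : R[X]),
    (f : Surf R x) = AdjoinRoot.of (sPoly R x) a + AdjoinRoot.of (sPoly R x) b * yS R x →
    ((δ f : A) : Surf R x) = algebraMap R (Surf R x) h *
      (2 * yS R x * AdjoinRoot.of (sPoly R x) (derivative a) +
        2 * yS R x ^ 2 * AdjoinRoot.of (sPoly R x) (derivative b) +
        algebraMap R (Surf R x) (x ^ 2) * AdjoinRoot.of (sPoly R x) b) := by
  let D0 : Derivation K (FractionRing R)[X] (FractionRing R)[X] := cF (h * x ^ 2) • dF K R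
  have key : ∀ (s : Surf R x) (a b : R[X]),
      s = AdjoinRoot.of (sPoly R x) a + AdjoinRoot.of (sPoly R x) b * yS R x →
      iotaF x hx (algebraMap R (Surf R x) h *
      (2 * yS R x * AdjoinRoot.of (sPoly R x) (derivative a) +
        2 * yS R x ^ 2 * AdjoinRoot.of (sPoly R x) (derivative b) +
        algebraMap R (Surf R x) (x ^ 2) * AdjoinRoot.of (sPoly R x) b)) = D0 (iotaF x hx s) := by
    intro s a b hs
    have e := x2_derivative (iotaK K hx) (dF K R) (dF_const hx) (dF_y hx) (iotaK_injective hx) hx a b
    rw [← hs] at e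
    rw [map_mul]
    change _ = cF (h * x ^ 2) * dF K R (iotaK K hx s)
    change _ * iotaK K hx _ = _
    rw [← e, iotaK_apply, iotaF_algebraMap, iotaF_algebraMap, cF, map_mul, C_mul, mul_assoc]
  have hex : ∀ p : A, ∃ q : A, jA hx A q = D0 (jA hx A p) := by
    intro p
    obtain ⟨a, b, hab⟩ := surf_nf x (p : Surf R x)
    exact ⟨⟨_, hh (2 * yS R x * AdjoinRoot.of (sPoly R x) (derivative a) +
        2 * yS R x ^ 2 * AdjoinRoot.of (sPoly R x) (derivative b) +
        algebraMap R (Surf R x) (x ^ 2) * AdjoinRoot.of (sPoly R x) b)⟩, by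
      rw [jA_apply, jA_apply]; exact key _ a b hab⟩
  obtain ⟨δ, hδ⟩ := exists_restrict (jA hx A) (jA_injective hx A) D0 hex
  refine ⟨δ, ?_, ?_⟩
  · apply restrict_lnd (jA_injective hx A) hδ
    intro p
    refine ⟨p.natDegree + 1, ?_⟩
    have h1 : ∀ n : ℕ, (⇑D0)^[n] p = C ((algebraMap R (FractionRing R) (h * x ^ 2)) ^ n) *
        (⇑derivative)^[n] p := by
      intro n
      induction n with
      | zero => simp
      | succ n ih =>
        rw [Function.iterate_succ_apply', Function.iterate_succ_apply', ih]
        change cF (h * x ^ 2) * derivative _ = _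
        rw [derivative_C_mul, cF, pow_succ _ n, C_mul]
        ring
    rw [h1, iterate_derivative_eq_zero (Nat.lt_succ_self _), mul_zero]
  · intro f a b hf
    apply iotaF_injective hx
    rw [key _ a b hf]
    exact hδ f

end Delta

end Pool.Agent.V1146
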