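import Pool.Agent.V1146.Dan.Inst

/-!
The surface `x ^ 2 * z = y ^ 2 + x` over Laurent polynomials, `x = T - 1`.
-/

open Polynomial

namespace Pool.Agent.V1146

open Pool.Agent.H868R3

universe u

/-- the ideal generated by the images of all locally nilpotent derivations -/
def imageIdeal (K A : Type u) [Field K] [CommRing A] [Algebra K A] : Ideal A :=
  Ideal.span {b : A | ∃ D : Derivation K A A, IsLND D ∧ ∃ a : A, b = D a}

section Laur

variable (K : Type u) [Field K]

/-- the element `T - 1` -/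
noncomputable def xL : LaurentPolynomial K := LaurentPolynomial.T 1 - 1

/-- the surface ring -/
abbrev SL : Type u := Surf (LaurentPolynomial K) (xL K)

variable {K}

lemma evL_xL (c : Kˣ) : evL c (xL K) = (c : K) - 1 := by
  rw [xL, map_sub, evL_T, map_one, zpow_one]

lemma xL_ne [CharZero K] : xL K ≠ 0 := by
  intro h
  have h1 := evL_xL (Units.mk0 (2 : K) two_ne_zero)
  rw [h, map_zero, Units.val_mk0] at h1
  norm_num at h1

lemma pt_aux (c : Kˣ) (y0 z0 : K)
    (h : y0 ^ 2 = ((c : K) - 1) ^ 2 * z0 - ((c : K) - 1)) :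
    eval₂ (Polynomial.eval₂RingHom ((evL c : LaurentPolynomial K →ₐ[K] K) :
      LaurentPolynomial K →+* K) z0) y0 (sPoly (LaurentPolynomial K) (xL K)) = 0 := by
  unfold sPoly
  simp only [eval₂_sub, eval₂_pow, eval₂_X, eval₂_C]
  simp only [coe_eval₂RingHom, eval₂_sub, eval₂_mul, eval₂_C, eval₂_X, map_pow,
    RingHom.coe_coe, evL_xL, eval₂_pow]
  rw [h, sub_self]

/-- evaluation at a point of the surface, as a ring homomorphism -/
noncomputable def ptR (c : Kˣ) (y0 z0 : K)
    (h : y0 ^ 2 = ((c : K) - 1) ^ 2 * z0 - ((c : K) - 1)) : SL K →+* K :=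
  AdjoinRoot.lift (Polynomial.eval₂RingHom ((evL c : LaurentPolynomial K →ₐ[K] K) :
      LaurentPolynomial K →+* K) z0) y0 (pt_aux c y0 z0 h)

lemma ptR_of (c : Kˣ) (y0 z0 : K) (h) (a : (LaurentPolynomial K)[X]) :
    ptR c y0 z0 h (AdjoinRoot.of _ a) =
      eval₂ ((evL c : LaurentPolynomial K →ₐ[K] K) : LaurentPolynomial K →+* K) z0 a := by
  unfold ptR
  rw [AdjoinRoot.lift_of]
  rfl

/-- evaluation at a point of the surface -/
noncomputable def pt (c : Kˣ) (y0 z0 : K)
    (h : y0 ^ 2 = ((c : K) - 1) ^ 2 * z0 - ((c : K) - 1)) : SL K →ₐ[K] K :=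
  { ptR c y0 z0 h with
    commutes' := by
      intro r
      change ptR c y0 z0 h (AdjoinRoot.of _ (C (algebraMap K (LaurentPolynomial K) r))) = r
      rw [ptR_of]
      simp only [eval₂_C, RingHom.coe_coe, AlgHom.commutes]
      rfl }

lemma pt_of (c : Kˣ) (y0 z0 : K) (h) (a : (LaurentPolynomial K)[X]) :
    pt c y0 z0 h (AdjoinRoot.of _ a) =
      eval₂ ((evL c : LaurentPolynomial K →ₐ[K] K) : LaurentPolynomial K →+* K) z0 a := by
  change ptR c y0 z0 h (AdjoinRoot.of _ a) = _
  rw [ptR_of]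

lemma pt_const (c : Kˣ) (y0 z0 : K) (h) (r : LaurentPolynomial K) :
    pt c y0 z0 h (algebraMap (LaurentPolynomial K) (SL K) r) = evL c r := by
  rw [← of_C, pt_of, eval₂_C]; rfl

lemma pt_y (c : Kˣ) (y0 z0 : K) (h) : pt c y0 z0 h (yS _ _) = y0 := by
  change ptR c y0 z0 h (AdjoinRoot.root _) = _
  unfold ptR
  rw [AdjoinRoot.lift_root]

lemma pt_z (c : Kˣ) (y0 z0 : K) (h) : pt c y0 z0 h (zS _ _) = z0 := by
  change pt c y0 z0 h (AdjoinRoot.of _ X) = _
  rw [pt_of, eval₂_X]

instance laurent_ft : Algebra.FiniteType K (LaurentPolynomial K) := by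
  classical
  refine ⟨⟨({(LaurentPolynomial.T 1 : LaurentPolynomial K),
      (LaurentPolynomial.T (-1) : LaurentPolynomial K)} : Finset (LaurentPolynomial K)), ?_⟩⟩
  rw [Finset.coe_insert, Finset.coe_singleton]
  exact laurent_adjoin

lemma surf_ft : Algebra.FiniteType K (SL K) := by
  have h1 : Algebra.FiniteType (LaurentPolynomial K) (LaurentPolynomial K)[X] := inferInstance
  have h2 : Algebra.FiniteType (LaurentPolynomial K)[X] (SL K) :=
    Algebra.FiniteType.of_surjective
      (AdjoinRoot.mkₐ (sPoly (LaurentPolynomial K) (xL K)) : (LaurentPolynomial K)[X][X] →ₐ[(LaurentPolynomial K)[X]] _) AdjoinRoot.mk_surjective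
  exact (Algebra.FiniteType.trans (inferInstance : Algebra.FiniteType K (LaurentPolynomial K))
    (Algebra.FiniteType.trans h1 h2))

variable [CharZero K]

lemma kill_R (A : Subalgebra K (SL K))
    (hR : ∀ r : LaurentPolynomial K, algebraMap (LaurentPolynomial K) (SL K) r ∈ A)
    (D : Derivation K A A) (hD : IsLND D) (r : LaurentPolynomial K) :
    D ⟨algebraMap (LaurentPolynomial K) (SL K) r, hR r⟩ = 0 := by
  have hdom : IsDomain A := by
    have h1 := jA_injective (K := K) xL_ne A
    exact Function.Injective.isDomain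
      (jA xL_ne A : A →+* (FractionRing (LaurentPolynomial K))[X]) h1
  have hr : r ∈ (⊤ : Subalgebra K (LaurentPolynomial K)) := trivial
  rw [← laurent_adjoin] at hr
  induction hr using Algebra.adjoin_induction with
  | mem r hr =>
    rcases hr with rfl | rfl
    · refine unit_ker hD (v := ⟨algebraMap _ _ (LaurentPolynomial.T (-1)), hR _⟩) ?_
      apply Subtype.ext
      change algebraMap (LaurentPolynomial K) (SL K) _ * algebraMap (LaurentPolynomial K) (SL K) _ = 1
      rw [← map_mul, T_mul_T_neg, map_one]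
    · refine unit_ker hD (v := ⟨algebraMap _ _ (LaurentPolynomial.T 1), hR _⟩) ?_
      apply Subtype.ext
      change algebraMap (LaurentPolynomial K) (SL K) _ * algebraMap (LaurentPolynomial K) (SL K) _ = 1
      rw [← map_mul, mul_comm, T_mul_T_neg, map_one]
  | algebraMap r =>
    have : (⟨algebraMap (LaurentPolynomial K) (SL K) (algebraMap K _ r), hR _⟩ : A) =
        algebraMap K A r := by
      apply Subtype.ext
      exact (IsScalarTower.algebraMap_apply K (LaurentPolynomial K) (SL K) r).symm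
    rw [this, D.map_algebraMap]
  | add p q _ _ hp hq =>
    have : (⟨algebraMap (LaurentPolynomial K) (SL K) (p + q), hR _⟩ : A) =
        ⟨algebraMap (LaurentPolynomial K) (SL K) p, hR _⟩ +
        ⟨algebraMap (LaurentPolynomial K) (SL K) q, hR _⟩ := by
      apply Subtype.ext; exact map_add _ _ _
    rw [this, map_add, hp, hq, add_zero]
  | mul p q _ _ hp hq =>
    have : (⟨algebraMap (LaurentPolynomial K) (SL K) (p * q), hR _⟩ : A) =
        ⟨algebraMap (LaurentPolynomial K) (SL K) p, hR _⟩ *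
        ⟨algebraMap (LaurentPolynomial K) (SL K) q, hR _⟩ := by
      apply Subtype.ext; exact map_mul _ _ _
    rw [this, D.leibniz, hp, hq, smul_zero, smul_zero, add_zero]

/-- the images of locally nilpotent derivations vanish at the point `(1, 0, 0)` -/
lemma image_vanish (A : Subalgebra K (SL K))
    (hR : ∀ r : LaurentPolynomial K, algebraMap (LaurentPolynomial K) (SL K) r ∈ A)
    (h : LaurentPolynomial K) (hh : ∀ s : SL K, algebraMap _ (SL K) h * s ∈ A)
    (h1 : evL (1 : Kˣ) h ≠ 0) (D : Derivation K A A) (hD : IsLND D) (f : A) :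
    pt (1 : Kˣ) 0 0 (by simp) ((D f : A) : SL K) = 0 := by
  have h0 : h ≠ 0 := by
    rintro rfl
    exact h1 (map_zero _)
  obtain ⟨r, hr⟩ := D_class xL_ne A hR h h0 hh D hD (kill_R A hR D hD)
  obtain ⟨a, b, hab⟩ := surf_nf _ (f : SL K)
  have h2 := congrArg (pt (1 : Kˣ) 0 0 (by simp)) (hr f a b hab)
  simp only [map_mul, map_add, pt_const, pt_y, map_pow, map_ofNat, evL_xL, Units.val_one,
    sub_self] at h2
  have h3 : 2 * evL (1 : Kˣ) h * pt (1 : Kˣ) 0 0 (by simp) ((D f : A) : SL K) = 0 := by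
    rw [h2]; ring
  exact (mul_eq_zero.mp h3).resolve_left (mul_ne_zero two_ne_zero h1)

lemma imageIdeal_vanish (A : Subalgebra K (SL K))
    (hR : ∀ r : LaurentPolynomial K, algebraMap (LaurentPolynomial K) (SL K) r ∈ A)
    (h : LaurentPolynomial K) (hh : ∀ s : SL K, algebraMap _ (SL K) h * s ∈ A)
    (h1 : evL (1 : Kˣ) h ≠ 0) (g : A) (hg : g ∈ imageIdeal K A) :
    pt (1 : Kˣ) 0 0 (by simp) (g : SL K) = 0 := by
  have h2 : imageIdeal K A ≤ RingHom.ker
      (((pt (1 : Kˣ) 0 0 (by simp) : SL K →ₐ[K] K).comp A.val : A →ₐ[K] K) : A →+* K) := by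
    apply Ideal.span_le.mpr
    rintro b ⟨D, hD, a, rfl⟩
    exact image_vanish A hR h hh h1 D hD a
  exact h2 hg

end Laur

end Pool.Agent.V1146
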