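import Pool.Agent.V1146.Dan.Der

/-!
A locally nilpotent derivation with a slice on `A[u]`, for a subalgebra `A` of the surface ring `S`
with `R ⊆ A` and `h * S ⊆ A`.
-/

open Polynomial

namespace Pool.Agent.V1146

open Pool.Agent.H868R3

universe u

section DF

variable {K R : Type u} [Field K] [CharZero K] [CommRing R] [IsDomain R] [Algebra K R]
  {x : R} {P : Type u} [CommRing P] [IsDomain P] [Algebra K P] (ι : Surf R x →ₐ[K] P)
  (d : Derivation K P P) (h : R)
  (hd : ∀ r : R, d (ι (algebraMap R (Surf R x) r)) = 0) (hdy : d (ι (yS R x)) = 1)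
  (hι : Function.Injective ι) (hx : x ≠ 0)

set_option linter.unusedSectionVars false

/-- constants in `P[u]` -/
noncomputable abbrev c2 (r : R) : P[X] := C (ι (algebraMap R (Surf R x) r))

/-- `v = Y + x u` -/
noncomputable def vB : P[X] := C (ι (yS R x)) + c2 ι x * X

/-- the derivation `D` with `D u = 1 + 2 h v` and `D Y = - 2 h x v` -/
noncomputable def DF : Derivation K P[X] P[X] :=
  (1 + 2 * c2 ι h * vB ι) • ((Polynomial.derivative' : Derivation P P[X] P[X]).restrictScalars K) +
  (-(2 * c2 ι h * c2 ι x * vB ι)) • mc d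

lemma DF_C (a : P) : DF ι d h (C a) = -(2 * c2 ι h * c2 ι x * vB ι) * C (d a) := by
  have h1 : mc d (C a) = C (d a) := by
    rw [← monomial_zero_left, mc_monomial, monomial_zero_left]
  have h2 : (Polynomial.derivative' : Derivation P P[X] P[X]) (C a) = 0 := derivative_C
  simp only [DF, Derivation.coe_add, Pi.add_apply, Derivation.coe_smul, Pi.smul_apply, smul_eq_mul,
    h1, Derivation.restrictScalars_apply, h2, mul_zero, zero_add]

lemma DF_X : DF ι d h X = 1 + 2 * c2 ι h * vB ι := by
  have h1 : mc d (X : P[X]) = 0 := by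
    rw [← monomial_one_one_eq_X, mc_monomial]
    simp
  have h2 : (Polynomial.derivative' : Derivation P P[X] P[X]) X = 1 := derivative_X
  simp only [DF, Derivation.coe_add, Pi.add_apply, Derivation.coe_smul, Pi.smul_apply, smul_eq_mul,
    h1, Derivation.restrictScalars_apply, h2, mul_zero, add_zero, mul_one]

include hd in
lemma DF_c2 (r : R) : DF ι d h (c2 ι r) = 0 := by
  rw [DF_C, hd, map_zero, mul_zero]

include hd in
lemma DF_c2_mul (r : R) (f : P[X]) : DF ι d h (c2 ι r * f) = c2 ι r * DF ι d h f := by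
  rw [Derivation.leibniz, DF_c2 ι d h hd, smul_zero, add_zero, smul_eq_mul]

include hd hdy in
lemma DF_v : DF ι d h (vB ι) = c2 ι x := by
  rw [vB, map_add, DF_C, DF_c2_mul ι d h hd, DF_X, hdy]
  simp only [map_one]
  rw [vB]
  ring

lemma c2_mul (r s : R) : c2 ι (r * s) = c2 ι r * c2 ι s := by
  simp only [c2, map_mul]

lemma c2_add (r s : R) : c2 ι (r + s) = c2 ι r + c2 ι s := by
  simp only [c2, map_add]

lemma c2_two : c2 ι 2 = 2 := by
  simp only [c2, map_ofNat]

lemma c2_pow (r : R) (n : ℕ) : c2 ι (r ^ n) = c2 ι r ^ n := by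
  simp only [c2, map_pow]

include hι in
lemma c2_ne {r : R} (hr : r ≠ 0) (hinj : Function.Injective (algebraMap R (Surf R x))) :
    c2 ι r ≠ 0 := by
  rw [c2, Ne, C_eq_zero]
  intro h1
  exact hr (hinj (hι (by rw [h1, map_zero, map_zero])))

include hx in
lemma algebraMap_inj : Function.Injective (algebraMap R (Surf R x)) := by
  intro a b hab
  have h1 := congrArg (iotaF x hx) hab
  rw [iotaF_algebraMap, iotaF_algebraMap] at h1
  exact (IsFractionRing.injective R (FractionRing R)) (C_injective h1)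

include hd hdy hι hx in
lemma DF_nil (p : Surf R x) : ∃ n : ℕ, (⇑(DF ι d h))^[n] (C (ι p)) = 0 := by
  have hc : ∀ r : R, ∃ n : ℕ, (⇑(DF ι d h))^[n] (c2 ι r) = 0 :=
    fun q => ⟨1, DF_c2 ι d h hd q⟩
  have hu : ∃ n : ℕ, (⇑(DF ι d h))^[n] (X : P[X]) = 0 := by
    refine ⟨3, ?_⟩
    rw [Function.iterate_succ_apply, DF_X, Function.iterate_succ_apply, map_add]
    have h1 : DF ι d h 1 = 0 := (DF ι d h).map_one_eq_zero
    have h2 : DF ι d h (2 * c2 ι h * vB ι) = 2 * c2 ι h * c2 ι x := by
      rw [← c2_two ι, ← c2_mul, DF_c2_mul ι d h hd, DF_v ι d h hd hdy]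
    rw [h1, h2, zero_add, Function.iterate_succ_apply, Function.iterate_zero, id_eq]
    rw [← c2_two ι, ← c2_mul, ← c2_mul, DF_c2 ι d h hd]
  have hv : ∃ n : ℕ, (⇑(DF ι d h))^[n] (vB ι) = 0 := by
    refine ⟨2, ?_⟩
    rw [Function.iterate_succ_apply, DF_v ι d h hd hdy, Function.iterate_succ_apply,
      Function.iterate_zero, id_eq, DF_c2 ι d h hd]
  have hY : ∃ n : ℕ, (⇑(DF ι d h))^[n] (C (ι (yS R x)) : P[X]) = 0 := by
    have : (C (ι (yS R x)) : P[X]) = vB ι + c2 ι (-x) * X := by
      simp only [vB, c2, map_neg]; ring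
    rw [this]
    exact nil_add _ hv (nil_mul _ (hc _) hu)
  have hZ : ∃ n : ℕ, (⇑(DF ι d h))^[n] (C (ι (zS R x)) : P[X]) = 0 := by
    have h1 : c2 ι (x ^ 2) * C (ι (zS R x)) = C (ι (yS R x)) * C (ι (yS R x)) + c2 ι x := by
      simp only [c2, ← C_mul, ← C_add, ← map_mul, ← map_add]
      congr 2
      rw [← pow_two, surf_rel]; ring
    have h2 : ∃ n : ℕ, (⇑(DF ι d h))^[n] (c2 ι (x ^ 2) * C (ι (zS R x))) = 0 := by
      rw [h1]; exact nil_add _ (nil_mul _ hY hY) (hc _)
    obtain ⟨n, hn⟩ := h2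
    refine ⟨n, ?_⟩
    have h3 : ∀ n : ℕ, (⇑(DF ι d h))^[n] (c2 ι (x ^ 2) * C (ι (zS R x))) =
        c2 ι (x ^ 2) * (⇑(DF ι d h))^[n] (C (ι (zS R x))) := by
      intro n
      induction n with
      | zero => rfl
      | succ n ih =>
        rw [Function.iterate_succ_apply', Function.iterate_succ_apply', ih, DF_c2_mul ι d h hd]
    rw [h3] at hn
    exact (mul_eq_zero.mp hn).resolve_left (c2_ne ι hι (pow_ne_zero 2 hx) (algebraMap_inj hx))
  have hof : ∀ a : R[X], ∃ n : ℕ,
      (⇑(DF ι d h))^[n] (C (ι (AdjoinRoot.of (sPoly R x) a)) : P[X]) = 0 := by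
    intro a
    induction a using Polynomial.induction_on with
    | C r => rw [of_C]; exact hc r
    | add p q hp hq => rw [map_add, map_add, map_add]; exact nil_add _ hp hq
    | monomial n r hn =>
      rw [pow_succ, ← mul_assoc, map_mul, map_mul, map_mul]
      exact nil_mul _ hn hZ
  obtain ⟨a, b, rfl⟩ := surf_nf x p
  rw [map_add, map_add, map_mul, map_mul]
  exact nil_add _ (hof a) (nil_mul _ (hof b) hY)

include hd hdy in
lemma DF_nilX : ∃ n : ℕ, (⇑(DF ι d h))^[n] (X : P[X]) = 0 := by
  refine ⟨3, ?_⟩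
  rw [Function.iterate_succ_apply, DF_X, Function.iterate_succ_apply, map_add]
  have h1 : DF ι d h 1 = 0 := (DF ι d h).map_one_eq_zero
  have h2 : DF ι d h (2 * c2 ι h * vB ι) = 2 * c2 ι h * c2 ι x := by
    rw [← c2_two ι, ← c2_mul, DF_c2_mul ι d h hd, DF_v ι d h hd hdy]
  rw [h1, h2, zero_add, Function.iterate_succ_apply, Function.iterate_zero, id_eq]
  rw [← c2_two ι, ← c2_mul, ← c2_mul, DF_c2 ι d h hd]

end DF

section Slice

variable {K R : Type u} [Field K] [CharZero K] [CommRing R] [IsDomain R] [Algebra K R]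
  {x : R} {P : Type u} [CommRing P] [IsDomain P] [Algebra K P] (ι : Surf R x →ₐ[K] P)
  (d : Derivation K P P)
  (hd : ∀ r : R, d (ι (algebraMap R (Surf R x) r)) = 0) (hdy : d (ι (yS R x)) = 1)
  (hι : Function.Injective ι) (hx : x ≠ 0)
  (A : Subalgebra K (Surf R x))
  (h : R) (hh : ∀ s : Surf R x, algebraMap R (Surf R x) h * s ∈ A)

set_option linter.unusedSectionVars false

/-- `h * s` as an element of `A` -/
noncomputable def hs (s : Surf R x) : A := ⟨_, hh s⟩

/-- the embedding of `A[u]` -/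
noncomputable def j2 : A[X] →ₐ[K] P[X] := mapAlgHom (ι.comp A.val)

lemma j2_C (a : A) : j2 ι A (C a) = C (ι (a : Surf R x)) := by
  simp [j2]

lemma j2_X : j2 ι A X = X := by
  simp [j2]

lemma j2_hs (s : Surf R x) : j2 ι A (C (hs A h hh s)) = c2 ι h * C (ι s) := by
  rw [j2_C, hs]; simp only [map_mul, c2]

include hι in
lemma j2_injective : Function.Injective (j2 ι A) :=
  Polynomial.map_injective _ (hι.comp Subtype.val_injective)

include hd hdy hx hι in
/-- the derivative of an element of the surface ring times `x ^ 2` -/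
lemma x2_derivative (a b : R[X]) :
    ι (algebraMap R (Surf R x) (x ^ 2)) * d (ι (AdjoinRoot.of (sPoly R x) a +
      AdjoinRoot.of (sPoly R x) b * yS R x)) =
    ι (2 * yS R x * AdjoinRoot.of (sPoly R x) (derivative a) +
        2 * yS R x ^ 2 * AdjoinRoot.of (sPoly R x) (derivative b) +
        algebraMap R (Surf R x) (x ^ 2) * AdjoinRoot.of (sPoly R x) b) := by
  have hz : ι (algebraMap R (Surf R x) (x ^ 2)) * d (ι (zS R x)) = 2 * ι (yS R x) := by
    have h1 : ι (algebraMap R (Surf R x) (x ^ 2)) * ι (zS R x) =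
        ι (yS R x) * ι (yS R x) + ι (algebraMap R (Surf R x) x) := by
      rw [← map_mul, ← map_mul, ← map_add]; congr 1
      rw [← pow_two, surf_rel]; ring
    have h2 := congrArg d h1
    rw [d.leibniz, hd, smul_zero, add_zero, map_add, hd, add_zero, d.leibniz, hdy] at h2
    simp only [smul_eq_mul, mul_one] at h2
    rw [h2]; ring
  have hof : ∀ a : R[X], ι (algebraMap R (Surf R x) (x ^ 2)) *
      d (ι (AdjoinRoot.of (sPoly R x) a)) =
      2 * ι (yS R x) * ι (AdjoinRoot.of (sPoly R x) (derivative a)) := by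
    intro a
    induction a using Polynomial.induction_on with
    | C r => rw [of_C, hd, derivative_C]; simp
    | add p q hp hq =>
      rw [map_add, map_add, map_add, mul_add, hp, hq, derivative_add, map_add, map_add]; ring
    | monomial n r hn =>
      have hzz : AdjoinRoot.of (sPoly R x) X = zS R x := rfl
      have hp : (C r * X ^ (n + 1) : R[X]) = C r * X ^ n * X := by ring
      rw [hp]
      generalize (C r * X ^ n : R[X]) = m at hn
      rw [map_mul, map_mul, d.leibniz, derivative_mul, derivative_X,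
        mul_one, map_add, map_mul, map_add, map_mul, hzz]
      simp only [smul_eq_mul]
      linear_combination ι (zS R x) * hn + ι (AdjoinRoot.of (sPoly R x) m) * hz
  rw [map_add, map_add, map_mul, d.leibniz, hdy]
  simp only [map_mul, map_add, map_pow, map_ofNat, smul_eq_mul]
  have ha := hof a
  have hb := hof b
  simp only [map_pow] at *
  linear_combination ha + ι (yS R x) * hb

include hd hdy hx hι hh in
lemma DF_range (p : A[X]) : ∃ q, j2 ι A q = DF ι d h (j2 ι A p) := by
  induction p using Polynomial.induction_on' with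
  | add p q hp hq =>
    obtain ⟨p', hp⟩ := hp
    obtain ⟨q', hq⟩ := hq
    exact ⟨p' + q', by rw [map_add, map_add, map_add, hp, hq]⟩
  | monomial n a =>
    have hCa : ∃ q, j2 ι A q = DF ι d h (j2 ι A (C a)) := by
      obtain ⟨α, β, hab⟩ := surf_nf x (a : Surf R x)
      let w : Surf R x := AdjoinRoot.of (sPoly R x) (derivative α) +
        AdjoinRoot.of (sPoly R x) (derivative β) * yS R x
      let b : Surf R x := AdjoinRoot.of (sPoly R x) β
      let xs := algebraMap R (Surf R x) x
      refine ⟨-(2 * (C (hs A h hh (2 * (xs * zS R x - 1) * w + xs * yS R x * b)) +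
        C (hs A h hh (2 * yS R x * w + xs ^ 2 * b)) * X)), ?_⟩
      have e := x2_derivative ι d hd hdy hι hx α β
      rw [← hab] at e
      have e' : ι xs ^ 2 * d (ι (a : Surf R x)) = 2 * ι (yS R x) * ι w + ι xs ^ 2 * ι b := by
        have : ι xs ^ 2 = ι (algebraMap R (Surf R x) (x ^ 2)) := by
          rw [← map_pow, ← map_pow]
        rw [this, e]
        simp only [map_mul, map_add, map_pow, map_ofNat, b, w]
        ring
      rw [j2_C, DF_C]
      simp only [map_neg, map_mul, map_add, map_ofNat, j2_hs, j2_X, map_sub, map_one, map_pow]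
      have e2 := congrArg (C : P → P[X]) e'
      have e1 : ι xs ^ 2 * ι (zS R x) = ι (yS R x) ^ 2 + ι xs := by
        have h0 : xs ^ 2 * zS R x = yS R x ^ 2 + xs := by
          rw [surf_rel]; simp only [map_pow, xs]; ring
        have h1 := congrArg ι h0
        simpa only [map_mul, map_add, map_pow] using h1
      have e3 := congrArg (C : P → P[X]) e1
      simp only [map_mul, map_add, map_pow, map_ofNat] at e2 e3
      have hne : (C (ι xs) : P[X]) ≠ 0 := c2_ne ι hι hx (algebraMap_inj hx)
      apply mul_left_cancel₀ hne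
      simp only [vB, c2]
      linear_combination 2 * C (ι (algebraMap R (Surf R x) h)) *
        (C (ι (yS R x)) + C (ι xs) * X) * e2 -
        4 * C (ι (algebraMap R (Surf R x) h)) * C (ι w) * e3
    have hX : ∃ q, j2 ι A q = DF ι d h (j2 ι A X) := by
      refine ⟨1 + 2 * (C (hs A h hh (yS R x)) +
        C (hs A h hh (algebraMap R (Surf R x) x)) * X), ?_⟩
      rw [j2_X, DF_X]
      simp only [map_add, map_mul, map_one, map_ofNat, j2_hs, j2_X, vB, c2]
      ring
    have hmul : ∀ p q : A[X], (∃ r, j2 ι A r = DF ι d h (j2 ι A p)) →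
        (∃ r, j2 ι A r = DF ι d h (j2 ι A q)) →
        (∃ r, j2 ι A r = DF ι d h (j2 ι A (p * q))) := by
      rintro p q ⟨p', hp⟩ ⟨q', hq⟩
      refine ⟨p * q' + q * p', ?_⟩
      rw [map_mul (j2 ι A) p q, Derivation.leibniz, map_add, map_mul, map_mul, hp, hq]
      rfl
    rw [← C_mul_X_pow_eq_monomial]
    apply hmul _ _ hCa
    induction n with
    | zero => exact ⟨0, by simp⟩
    | succ n ih => rw [pow_succ]; exact hmul _ _ ih hX

/-- the element `q = x z + 2 y u + x u ^ 2` times `h` -/
noncomputable def qq : A[X] :=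
  C (hs A h hh (algebraMap R _ x * zS R x)) +
    2 * C (hs A h hh (yS R x)) * X + C (hs A h hh (algebraMap R _ x)) * X ^ 2

/-- the element `z + 2 h r + h ^ 2 q ^ 2` times `h` -/
noncomputable def GG : A[X] :=
  C (hs A h hh (zS R x)) + 2 * (C (hs A h hh (algebraMap R _ h * (yS R x * zS R x))) +
    2 * C (hs A h hh (algebraMap R _ h * (algebraMap R _ x * zS R x - 1))) * X +
    C (hs A h hh (algebraMap R _ h * yS R x)) * X ^ 2) +
  C (hs A h hh 1) * qq A h hh ^ 2

include ι d hd hdy hx hι in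
theorem GG_mem : GG A h hh ∈ HDStar K A[X] := by
  obtain ⟨D, hD⟩ := exists_restrict (j2 ι A) (j2_injective ι hι A) (DF ι d h)
    (DF_range ι d hd hdy hι hx A h hh)
  have hDlnd : IsLND D := by
    intro p
    have key : ∃ n : ℕ, (⇑(DF ι d h))^[n] (j2 ι A p) = 0 := by
      induction p using Polynomial.induction_on with
      | C a => rw [j2_C]; exact DF_nil ι d h hd hdy hι hx _
      | add p q hp hq => rw [map_add]; exact nil_add _ hp hq
      | monomial n r hn =>
        rw [pow_succ, ← mul_assoc, map_mul, j2_X]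
        exact nil_mul _ hn (DF_nilX ι d h hd hdy)
    obtain ⟨n, hn⟩ := key
    refine ⟨n, j2_injective ι hι A ?_⟩
    have : ∀ n : ℕ, j2 ι A ((⇑D)^[n] p) = (⇑(DF ι d h))^[n] (j2 ι A p) := by
      intro n
      induction n with
      | zero => rfl
      | succ n ih => rw [Function.iterate_succ_apply', Function.iterate_succ_apply', hD, ih]
    rw [this, hn, map_zero]
  have hne : c2 ι x ≠ 0 := c2_ne ι hι hx (algebraMap_inj hx)
  have e3 : c2 ι x ^ 2 * C (ι (zS R x)) = C (ι (yS R x)) ^ 2 + c2 ι x := by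
    simp only [c2, ← C_mul, ← C_add, ← C_pow, ← map_mul, ← map_add, ← map_pow]
    congr 2
    rw [surf_rel]; simp only [map_pow]; ring
  -- `q`
  obtain ⟨q, hq⟩ : ∃ q : P[X], q = c2 ι x * C (ι (zS R x)) + 2 * C (ι (yS R x)) * X +
    c2 ι x * X ^ 2 := ⟨_, rfl⟩
  have hxq : c2 ι x * q = vB ι ^ 2 + c2 ι x := by
    rw [hq, vB]
    linear_combination e3
  have hDq : DF ι d h q = 2 * vB ι := by
    apply mul_left_cancel₀ hne
    have : DF ι d h (c2 ι x * q) = 2 * vB ι * c2 ι x := by
      rw [hxq, map_add, DF_c2 ι d h hd, add_zero, pow_two, Derivation.leibniz,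
        DF_v ι d h hd hdy, smul_eq_mul]; ring
    rw [DF_c2_mul ι d h hd] at this
    rw [this]; ring
  have hjq : j2 ι A (qq A h hh) = c2 ι h * q := by
    rw [qq, hq]
    simp only [map_add, map_mul, map_pow, map_ofNat, j2_hs, j2_X]
    ring
  refine mem_hdstar_of hDlnd (s := X - qq A h hh) ?_ ?_
  · apply j2_injective ι hι A
    rw [hD, map_one, map_sub, j2_X, hjq, map_sub, DF_X, DF_c2_mul ι d h hd, hDq]; ring
  · apply j2_injective ι hι A
    rw [hD, map_zero]
    have h1 : c2 ι x ^ 2 * j2 ι A (GG A h hh) =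
        c2 ι h * ((C (ι (yS R x)) + c2 ι (h * x) * q) ^ 2 + c2 ι x) := by
      rw [GG]
      simp only [map_sub, map_add, map_mul, map_pow, map_ofNat, map_one, j2_hs, j2_X, hjq, c2_mul,
        hq]
      simp only [c2] at *
      linear_combination (C (ι (algebraMap R (Surf R x) h))) * e3
        + 4 * (C (ι (algebraMap R (Surf R x) h))) ^ 2 * C (ι (algebraMap R (Surf R x) x))
          * X * e3
    have h2 : DF ι d h (C (ι (yS R x)) + c2 ι (h * x) * q) = 0 := by
      rw [map_add, DF_C, DF_c2_mul ι d h hd, hDq, hdy, c2_mul]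
      simp only [map_one]; ring
    have h3 : DF ι d h (c2 ι x ^ 2 * j2 ι A (GG A h hh)) = 0 := by
      rw [h1, DF_c2_mul ι d h hd, map_add, DF_c2 ι d h hd, pow_two, Derivation.leibniz, h2]
      simp
    have h4 : c2 ι x ^ 2 * DF ι d h (j2 ι A (GG A h hh)) = 0 := by
      rw [← h3, ← c2_pow, DF_c2_mul ι d h hd]
    exact (mul_eq_zero.mp h4).resolve_left (pow_ne_zero 2 hne)

end Slice

end Pool.Agent.V1146
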