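import Pool.Agent.V1146.Dan.Laur

/-!
Type A does not imply that the images of the locally nilpotent derivations generate the unit ideal.
-/

open Polynomial

namespace Pool.Agent.V1146

open Pool.Agent.H868R3

universe u

section Abs

variable {K A : Type u} [Field K] [CharZero K] [CommRing A] [Algebra K A]

lemma abs_X {B : Type u} [CommRing B] [Algebra K B] (H : Subalgebra K B)
    (x y z Q X : B) (hy : y ∈ H) (hz : z ∈ H) (hQ : Q ∈ H) (hx : x * X ∈ H) (hyX : y * X ^ 2 ∈ H)
    (hG : z + 2 * (y * z + 2 * (x * z - 1) * X + y * X ^ 2) + Q ^ 2 ∈ H) : 2 * (2 * X) ∈ H := by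
  have h2 : (2 : B) ∈ H := by
    rw [← one_add_one_eq_two]; exact add_mem (one_mem H) (one_mem H)
  have : 2 * (2 * X) = 2 * (y * z) + 2 * 2 * (z * (x * X)) + 2 * (y * X ^ 2) -
      ((z + 2 * (y * z + 2 * (x * z - 1) * X + y * X ^ 2) + Q ^ 2) - Q ^ 2 - z) := by ring
  rw [this]
  exact sub_mem (add_mem (add_mem (mul_mem h2 (mul_mem hy hz)) (mul_mem (mul_mem h2 h2)
    (mul_mem hz hx))) (mul_mem h2 hyX)) (sub_mem (sub_mem hG (pow_mem hQ 2)) hz)

lemma abs_top (x y z : A) (hrel : y ^ 2 = x ^ 2 * z - x)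
    (m1 : ∀ k : ℕ, C (x ^ 2) * X ^ (k + 1) ∈ HDStar K A[X])
    (m2 : ∀ k : ℕ, C (2 * y) * X ^ (k + 1) ∈ HDStar K A[X])
    (m5 : C z + 2 * (C (y * z) + 2 * C (x * z - 1) * X + C y * X ^ 2) +
      C 1 * (C (x * z) + 2 * C y * X + C x * X ^ 2) ^ 2 ∈ HDStar K A[X]) :
    HDStar K A[X] = ⊤ := by
  have hc : ∀ a : A, C a ∈ HDStar K A[X] := C_mem_hdstar
  have half : ∀ F : A[X], 2 * F ∈ HDStar K A[X] → F ∈ HDStar K A[X] := by
    intro F hF
    have h1 := (HDStar K A[X]).smul_mem hF (2⁻¹ : K)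
    have h2 : (2⁻¹ : K) • (2 * F) = F := by
      have : (2 : A[X]) * F = (2 : K) • F := by
        rw [Algebra.smul_def, map_ofNat]
      rw [this, smul_smul, inv_mul_cancel₀ two_ne_zero, one_smul]
    rwa [h2] at h1
  have m3 : ∀ k : ℕ, C x * X ^ (k + 1) ∈ HDStar K A[X] := by
    intro k
    apply half
    have : (2 : A[X]) * (C x * X ^ (k + 1)) =
        (C z + C z) * (C (x ^ 2) * X ^ (k + 1)) - C y * (C (2 * y) * X ^ (k + 1)) := by
      have h1 : C x = C (x ^ 2) * C z - C y * C y := by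
        rw [← C_mul, ← C_mul, ← C_sub]; congr 1
        rw [← pow_two, hrel]; ring
      have h2 : C (2 * y) = C y + C y := by rw [← C_add]; congr 1; ring
      rw [h1, h2]
      ring
    rw [this]
    exact sub_mem (mul_mem (add_mem (hc z) (hc z)) (m1 k)) (mul_mem (hc y) (m2 k))
  have m4 : ∀ k : ℕ, C y * X ^ (k + 1) ∈ HDStar K A[X] := by
    intro k
    apply half
    have : (2 : A[X]) * (C y * X ^ (k + 1)) = C (2 * y) * X ^ (k + 1) := by
      have h2 : C (2 * y) = C y + C y := by rw [← C_add]; congr 1; ring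
      rw [h2]; ring
    rw [this]
    exact m2 k
  have hq : C (x * z) + 2 * C y * X + C x * X ^ 2 ∈ HDStar K A[X] := by
    refine add_mem (add_mem (hc _) ?_) (m3 1)
    have : (2 : A[X]) * C y * X = C y * X ^ (0 + 1) + C y * X ^ (0 + 1) := by ring
    rw [this]
    exact add_mem (m4 0) (m4 0)
  have hX : (X : A[X]) ∈ HDStar K A[X] := by
    apply half
    apply half
    refine abs_X (HDStar K A[X]) (C x) (C y) (C z) _ X (hc y) (hc z) hq ?_ ?_ ?_
    · have := m3 0; rwa [zero_add, pow_one] at this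
    · have := m4 1; rwa [one_add_one_eq_two] at this
    · have h2 : (C (y * z) : A[X]) = C y * C z := C_mul
      have h3 : (C (x * z - 1) : A[X]) = C x * C z - 1 := by rw [C_sub, C_mul, C_1]
      rw [← h2, ← h3]
      rw [C_1, one_mul] at m5
      exact m5
  rw [eq_top_iff]
  intro F _
  induction F using Polynomial.induction_on with
  | C a => exact hc a
  | add p q hp hq => exact add_mem (hp trivial) (hq trivial)
  | monomial n a _ => exact mul_mem (hc a) (pow_mem hX _)

end Abs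

section TypeA

variable (K : Type u) [Field K] [CharZero K]

/-- the ring `S` as a subalgebra of itself -/
noncomputable def AT : Subalgebra K (SL K) := ⊤

lemma AT_hh (s : SL K) : algebraMap _ (SL K) (1 : LaurentPolynomial K) * s ∈ AT K := trivial

lemma AT_hR (r : LaurentPolynomial K) : algebraMap (LaurentPolynomial K) (SL K) r ∈ AT K := trivial

lemma typeA : HDStar K (AT K)[X] = ⊤ := by
  obtain ⟨x, hx⟩ : ∃ x : AT K, x = ⟨algebraMap (LaurentPolynomial K) (SL K) (xL K), AT_hR K _⟩ :=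
    ⟨_, rfl⟩
  obtain ⟨y, hy⟩ : ∃ y : AT K, y = ⟨yS _ _, trivial⟩ := ⟨_, rfl⟩
  obtain ⟨z, hz⟩ : ∃ z : AT K, z = ⟨zS _ _, trivial⟩ := ⟨_, rfl⟩
  have hrel : y ^ 2 = x ^ 2 * z - x := by
    apply Subtype.ext
    rw [hx, hy, hz]
    change yS _ _ ^ 2 = (algebraMap (LaurentPolynomial K) (SL K) (xL K)) ^ 2 * zS _ _ -
      algebraMap (LaurentPolynomial K) (SL K) (xL K)
    rw [surf_rel, map_pow]
  obtain ⟨δ, hδ, hf⟩ := exists_delta xL_ne (AT K) 1 (AT_hh K)
  have hδy : δ y = x ^ 2 := by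
    apply Subtype.ext
    rw [hf y 0 1 (by rw [hy, map_zero, map_one, one_mul, zero_add])]
    rw [hx]
    simp only [map_one, derivative_one, map_zero, mul_zero, mul_one, one_mul,
      zero_add, map_pow]
    rfl
  have hδz : δ z = 2 * y := by
    apply Subtype.ext
    rw [hf z X 0 (by rw [hz, map_zero, zero_mul, add_zero]; rfl)]
    rw [hy]
    simp only [map_one, derivative_X, map_zero, mul_zero, mul_one, one_mul,
      add_zero]
    rfl
  have hδx : δ x = 0 := by
    rw [hx]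
    exact kill_R (AT K) (AT_hR K) δ hδ _
  have hδx2 : δ (x ^ 2) = 0 := by
    rw [pow_two, δ.leibniz, hδx, smul_zero, add_zero]
  have hδ2 : δ (2 * y) = 2 * x ^ 2 := by
    have : (2 : AT K) * y = y + y := by ring
    rw [this, map_add, hδy]; ring
  have hδ3 : δ (2 * x ^ 2) = 0 := by
    have : (2 : AT K) * x ^ 2 = x ^ 2 + x ^ 2 := by ring
    rw [this, map_add, hδx2, add_zero]
  have m5 := GG_mem (iotaK K (xL_ne (K := K))) (dF K (LaurentPolynomial K)) (dF_const xL_ne)
    (dF_y xL_ne) (iotaK_injective xL_ne) xL_ne (AT K) 1 (AT_hh K)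
  have hsz : hs (AT K) 1 (AT_hh K) (zS _ _) = z := by
    apply Subtype.ext; rw [hz]; simp only [hs, map_one, one_mul]
  have hsy : hs (AT K) 1 (AT_hh K) (yS _ _) = y := by
    apply Subtype.ext; rw [hy]; simp only [hs, map_one, one_mul]
  have hsx : hs (AT K) 1 (AT_hh K) (algebraMap _ _ (xL K)) = x := by
    apply Subtype.ext; rw [hx]; simp only [hs, map_one, one_mul]
  have hs1 : hs (AT K) 1 (AT_hh K) 1 = 1 := by
    apply Subtype.ext; simp only [hs, map_one, one_mul]; rfl
  have hsxz : hs (AT K) 1 (AT_hh K) (algebraMap _ _ (xL K) * zS _ _) = x * z := by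
    apply Subtype.ext; rw [hx, hz]; simp only [hs, map_one, one_mul]; rfl
  have hsyz : hs (AT K) 1 (AT_hh K) (algebraMap (LaurentPolynomial K) _ 1 * (yS _ _ * zS _ _)) = y * z := by
    apply Subtype.ext; rw [hy, hz]; simp only [hs, map_one, one_mul]; rfl
  have hsy' : hs (AT K) 1 (AT_hh K) (algebraMap (LaurentPolynomial K) _ 1 * yS _ _) = y := by
    apply Subtype.ext; rw [hy]; simp only [hs, map_one, one_mul]
  have hsx' : hs (AT K) 1 (AT_hh K) (algebraMap (LaurentPolynomial K) _ 1 *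
      (algebraMap _ _ (xL K) * zS _ _ - 1)) =
      x * z - 1 := by
    apply Subtype.ext; rw [hx, hz]; simp only [hs, map_one, one_mul]; rfl
  unfold GG qq at m5
  rw [hsz, hsyz, hsx', hsy', hs1, hsxz, hsy, hsx] at m5
  exact abs_top x y z hrel (mul_X_pow_mem_hdstar δ hδ y (x ^ 2) hδy hδx2)
    (mul_X_pow_mem_hdstar' δ hδ hδz hδ2 hδ3) m5

end TypeA

end Pool.Agent.V1146
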