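import Pool.Agent.V1146.Dan.Laur
import Mathlib.RingTheory.Adjoin.Tower

/-!
A variety of type B for which the modified Derksen invariant is not `K[Y] ⊕ ⨁ I u ^ i`.
-/

open Polynomial

namespace Pool.Agent.V1146

open Pool.Agent.H868R3

universe u

section TypeB

variable (K : Type u) [Field K] [CharZero K]

/-- the point `(c, y, z) = (-1, 0, -1/2)` -/
noncomputable def p0 : SL K →ₐ[K] K := pt (-1 : Kˣ) 0 (-(2⁻¹)) (by
  simp only [Units.val_neg, Units.val_one]
  have h2 : (2 : K) * 2⁻¹ = 1 := mul_inv_cancel₀ two_ne_zero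
  linear_combination (2 : K) * h2)

/-- the point `(c, y, z) = (-1, 1, -1/4)` -/
noncomputable def p1 : SL K →ₐ[K] K := pt (-1 : Kˣ) 1 (-(4⁻¹)) (by
  simp only [Units.val_neg, Units.val_one]
  have h2 : (4 : K) * 4⁻¹ = 1 := mul_inv_cancel₀ (by norm_num)
  linear_combination h2)

/-- the functions with the same value at the two points -/
noncomputable def AB : Subalgebra K (SL K) := AlgHom.equalizer (p0 K) (p1 K)

variable {K}

lemma mem_AB {f : SL K} : f ∈ AB K ↔ p0 K f = p1 K f := Iff.rfl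

/-- the element `T + 1` -/
noncomputable def hB (K : Type u) [Field K] : LaurentPolynomial K := LaurentPolynomial.T 1 + 1

lemma evL_hB (c : Kˣ) : evL c (hB K) = (c : K) + 1 := by
  rw [hB, map_add, evL_T, map_one, zpow_one]

lemma p0_const (r : LaurentPolynomial K) : p0 K (algebraMap _ (SL K) r) = evL (-1 : Kˣ) r :=
  pt_const _ _ _ _ _

lemma p1_const (r : LaurentPolynomial K) : p1 K (algebraMap _ (SL K) r) = evL (-1 : Kˣ) r :=
  pt_const _ _ _ _ _

lemma p0_y : p0 K (yS _ _) = 0 := pt_y _ _ _ _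

lemma p1_y : p1 K (yS _ _) = 1 := pt_y _ _ _ _

lemma AB_hR (r : LaurentPolynomial K) : algebraMap (LaurentPolynomial K) (SL K) r ∈ AB K := by
  rw [mem_AB, p0_const, p1_const]

lemma AB_hh (s : SL K) : algebraMap _ (SL K) (hB K) * s ∈ AB K := by
  rw [mem_AB, map_mul, map_mul, p0_const, p1_const, evL_hB]
  simp

lemma evL_hB_one : evL (1 : Kˣ) (hB K) ≠ 0 := by
  rw [evL_hB, Units.val_one, one_add_one_eq_two]
  exact two_ne_zero

lemma AB_isDomain : IsDomain (AB K) := by
  have h1 := jA_injective (K := K) xL_ne (AB K)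
  exact Function.Injective.isDomain
    (jA xL_ne (AB K) : AB K →+* (FractionRing (LaurentPolynomial K))[X]) h1

lemma AB_ft : Algebra.FiniteType K (AB K) := by
  have h0 : Algebra.FiniteType K (SL K) := surf_ft
  constructor
  apply fg_of_fg_of_fg K (AB K) (SL K) h0.out
  · classical
    refine ⟨{1, yS _ _}, ?_⟩
    rw [eq_top_iff]
    intro f _
    obtain ⟨u, hu⟩ : ∃ u : K, u = p1 K f - p0 K f := ⟨_, rfl⟩
    have hg : f - algebraMap K (SL K) u * yS _ _ ∈ AB K := by
      rw [mem_AB, map_sub, map_sub, map_mul, map_mul, p0_y, p1_y, AlgHom.commutes, AlgHom.commutes,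
        hu]
      simp
    have hf : f = (⟨_, hg⟩ : AB K) • (1 : SL K) + (algebraMap K (AB K) u) • (yS _ _) := by
      change f = (f - algebraMap K (SL K) u * yS _ _) * 1 + (algebraMap K (SL K) u) * yS _ _
      ring
    rw [hf]
    apply Submodule.add_mem
    · exact Submodule.smul_mem _ _ (Submodule.subset_span (by simp))
    · exact Submodule.smul_mem _ _ (Submodule.subset_span (by simp))
  · exact Subtype.val_injective

lemma AB_not_rigid : ∃ D : Derivation K (AB K) (AB K), IsLND D ∧ D ≠ 0 := by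
  obtain ⟨δ, hδ, hf⟩ := exists_delta xL_ne (AB K) (hB K) AB_hh
  refine ⟨δ, hδ, ?_⟩
  rintro rfl
  have h1 := hf ⟨_, AB_hh (yS _ _)⟩ 0 (C (hB K)) (by
    rw [map_zero, zero_add, of_C])
  rw [Derivation.zero_apply] at h1
  have h2 : ((0 : AB K) : SL K) = 0 := rfl
  simp only [derivative_C, derivative_zero, map_zero, mul_zero, zero_add, h2, of_C] at h1
  have h3 := congrArg (pt (Units.mk0 (2 : K) two_ne_zero) 0 1 (by
    rw [Units.val_mk0]; norm_num)) h1
  rw [map_zero, map_mul, map_mul, pt_const, pt_const, evL_hB, map_pow, evL_xL, Units.val_mk0] at h3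
  norm_num at h3

lemma AB_ne_top : HDStar K (AB K)[X] ≠ ⊤ := by
  intro htop
  have hdom : IsDomain (SL K) := surf_isDomain xL_ne
  have h1 := hdstar_const (AB K) (p0 K) (p1 K) (fun a ha => ha) (yS _ _) 1 p0_y p1_y
    (one_mem _) (map_one _) (by
      intro f hf hf0 i
      have hf1 : p1 K f = 0 := by rw [← mem_AB.mp hf, hf0]
      rw [mem_AB, map_mul, map_mul, map_mul, map_mul, hf0, hf1, mul_zero, mul_zero])
    X (by rw [htop]; trivial)
  obtain ⟨k, hk⟩ := h1
  have h2 : resLine (AB K) (p0 K) X = X := by simp [resLine]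
  rw [h2] at hk
  have := congrArg natDegree hk
  rw [natDegree_X, natDegree_C] at this
  exact one_ne_zero this

lemma coeff_one_GG (A : Subalgebra K (SL K)) (h : LaurentPolynomial K)
    (hh : ∀ s : SL K, algebraMap _ (SL K) h * s ∈ A) :
    (GG A h hh).coeff 1 = 4 * hs A h hh (algebraMap _ _ h * (algebraMap _ _ (xL K) * zS _ _ - 1)) +
      4 * (hs A h hh 1 * (hs A h hh (algebraMap _ _ (xL K) * zS _ _) * hs A h hh (yS _ _))) := by
  unfold GG qq
  generalize hs A h hh (zS _ _) = a1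
  generalize hs A h hh (algebraMap _ _ h * (yS _ _ * zS _ _)) = a2
  generalize hs A h hh (algebraMap _ _ h * (algebraMap _ _ (xL K) * zS _ _ - 1)) = a3
  generalize hs A h hh (algebraMap _ _ h * yS _ _) = a4
  generalize hs A h hh (algebraMap _ _ (xL K) * zS _ _) = a5
  generalize hs A h hh (yS _ _) = a6
  generalize hs A h hh 1 = a7
  generalize hs A h hh (algebraMap _ _ (xL K)) = a8
  have : C a1 + 2 * (C a2 + 2 * C a3 * X + C a4 * X ^ 2) +
      C a7 * (C a5 + 2 * C a6 * X + C a8 * X ^ 2) ^ 2 =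
      C (a1 + 2 * a2 + a7 * a5 ^ 2) + C (4 * a3 + 4 * (a7 * (a5 * a6))) * X +
      C (2 * a4 + 4 * a7 * a6 ^ 2 + 2 * a7 * a5 * a8) * X ^ 2 +
      C (4 * a7 * a6 * a8) * X ^ 3 + C (a7 * a8 ^ 2) * X ^ 4 := by
    simp only [C_add, C_mul, C_pow, show (C 2 : A[X]) = 2 from rfl, show (C 4 : A[X]) = 4 from rfl]
    ring
  rw [this]
  generalize a1 + 2 * a2 + a7 * a5 ^ 2 = c0
  generalize 4 * a3 + 4 * (a7 * (a5 * a6)) = c1
  generalize 2 * a4 + 4 * a7 * a6 ^ 2 + 2 * a7 * a5 * a8 = c2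
  generalize 4 * a7 * a6 * a8 = c3
  generalize a7 * a8 ^ 2 = c4
  rw [coeff_add, coeff_add, coeff_add, coeff_add, coeff_C_mul, coeff_C_mul, coeff_C_mul,
    coeff_C_mul, coeff_X_pow, coeff_X_pow, coeff_X_pow, coeff_X_one, coeff_C]
  simp

/-- the element of the invariant whose coefficient at `u` is not in `I` -/
lemma AB_strict : ∃ F ∈ HDStar K (AB K)[X], F.coeff 1 ∉ imageIdeal K (AB K) := by
  refine ⟨_, GG_mem (iotaK K (xL_ne (K := K))) (dF K (LaurentPolynomial K)) (dF_const xL_ne)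
    (dF_y xL_ne) (iotaK_injective xL_ne) xL_ne (AB K) (hB K) AB_hh, ?_⟩
  intro hcon
  have h1 := imageIdeal_vanish (AB K) AB_hR (hB K) AB_hh evL_hB_one _ hcon
  rw [coeff_one_GG] at h1
  simp only [hs] at h1
  have h2 : ∀ a b : AB K, ((a + b : AB K) : SL K) = a + b := fun _ _ => rfl
  have h3 : ∀ a b : AB K, ((a * b : AB K) : SL K) = a * b := fun _ _ => rfl
  have h4 : ((4 : AB K) : SL K) = 4 := rfl
  rw [h2, h3, h3, h3, h3, h4] at h1
  simp only [map_add, map_mul, map_sub, map_one, pt_const, pt_y, pt_z, evL_hB, evL_xL,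
    Units.val_one, map_ofNat] at h1
  norm_num at h1

end TypeB

end Pool.Agent.V1146
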